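import Pool.Agent.H33B.Stm

/-!
# Piece ALG (from FIN and KRU)
-/

set_option autoImplicit false

open MvPolynomial

namespace Pool.Agent.H33B

namespace Alg

lemma totalDegree_pderiv_lt {ι : Type} (P : MvPolynomial ι ℂ) (i : ι) (h : pderiv i P ≠ 0) :
    (pderiv i P).totalDegree < P.totalDegree := by
  classical
  obtain ⟨m, hm, hmax⟩ := Finset.exists_mem_eq_sup _ (support_nonempty.2 h)
    (fun s : ι →₀ ℕ => s.sum fun _ e => e)
  have h1 : (pderiv i P).totalDegree = m.sum fun _ e => e := hmax
  have h2 : coeff m (pderiv i P) ≠ 0 := mem_support_iff.1 hm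
  rw [coeff_pderiv] at h2
  have h3 : coeff (m + Finsupp.single i 1) P ≠ 0 := fun h0 => h2 (by rw [h0]; simp)
  have h4 := le_totalDegree (mem_support_iff.2 h3)
  rw [Finsupp.sum_add_index' (by simp) (by simp)] at h4
  simp at h4
  rw [h1]
  simpa [Finsupp.sum] using Nat.lt_of_succ_le h4

end Alg

theorem t_alg (hFin : S_Fin) (hKru : S_Kru) : S_Alg := by
  intro σ _ F R d hd hF hR a b g ℓ hg hI h0
  obtain ⟨lin, hlin⟩ : ∃ lin : Fin b → MvPolynomial σ ℂ, lin = fun j => ∑ s, C (ℓ j s) * X s := ⟨_, rfl⟩
  have hhom : ∀ j, (lin j).IsHomogeneous 1 := by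
    intro j
    rw [hlin]
    refine IsHomogeneous.sum _ _ _ fun s _ => ?_
    exact (isHomogeneous_X ℂ s).C_mul (ℓ j s)
  have hev : ∀ j x, eval x (lin j) = ∑ s, ℓ j s * x s := by
    intro j x
    rw [hlin]
    simp
  have hpR : ∀ i, (pderiv i R).totalDegree < d := by
    intro i
    rcases eq_or_ne (pderiv i R) 0 with h | h
    · rw [h, totalDegree_zero]
      exact hd
    · exact (Alg.totalDegree_pderiv_lt R i h).trans_le hR
  have hpF : ∀ i, (pderiv i F).IsHomogeneous d := by
    intro i
    have h := hF.pderiv (i := i)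
    rwa [Nat.add_sub_cancel] at h
  have hmem : ∀ j, (Sum.elim (fun i : σ => pderiv i (F - R)) lin) j ∈ Ideal.span (Set.range (Fin.append g lin)) := by
    have hg' : Ideal.span (Set.range g) ≤ Ideal.span (Set.range (Fin.append g lin)) := by
      refine Ideal.span_mono ?_
      rintro _ ⟨j, rfl⟩
      exact ⟨Fin.castAdd b j, Fin.append_left _ _ _⟩
    rintro (i | j)
    · exact hg' (hI i)
    · exact Ideal.subset_span ⟨Fin.natAdd a j, Fin.append_right _ _ _⟩
  have hfin : Module.Finite ℂ (MvPolynomial σ ℂ ⧸ Ideal.span (Set.range (Fin.append g lin))) := by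
    refine hFin σ (σ ⊕ Fin b) (Sum.elim (fun i : σ => pderiv i (F - R)) lin) (Sum.elim (fun _ => d) fun _ => 1)
      ?_ ?_ ?_ _ hmem
    · rintro (i | j)
      · exact hd
      · exact le_rfl
    · rintro (i | j)
      · change (pderiv i (F - R)).totalDegree ≤ d
        rw [map_sub]
        exact (totalDegree_sub _ _).trans (max_le (hpF i).totalDegree_le (hpR i).le)
      · exact (hhom j).totalDegree_le
    · intro x hx
      refine h0 x (fun i => ?_) fun j => ?_
      · have h1 : eval x (homogeneousComponent d (pderiv i (F - R))) = 0 := hx (Sum.inl i)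
        rwa [map_sub, map_sub, homogeneousComponent_eq_zero _ _ (hpR i), sub_zero,
          homogeneousComponent_eq_self (hpF i)] at h1
      · have h1 : eval x (homogeneousComponent 1 (lin j)) = 0 := hx (Sum.inr j)
        rwa [homogeneousComponent_eq_self (hhom j), hev] at h1
  refine hKru σ (a + b) (Fin.append g lin) (fun j => ?_) hfin
  refine Fin.addCases (fun j => ?_) (fun j => ?_) j
  · rw [Fin.append_left]
    exact hg j
  · rw [Fin.append_right, hlin]
    simp

end Pool.Agent.H33B
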