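import Pool.Agent.H33B.Stm

/-!
# Piece CHAIN of project ABP
-/

set_option autoImplicit false
set_option linter.all false

namespace Pool.Agent.H33B

namespace CHAIN

variable {q h k : ℕ} {S : Type} [CommRing S]

/-- eliminating one layer -/
theorem elim (σ υ : Fin k ↪ Yt q h) (π : Equiv.Perm (Fin k)) (s t : Fin q → ℕ) (x : S) :
    (∑ σ' : Fin k ↪ Yt q h, if (∀ (i : Fin k) (c : Fin q), (σ i c : ℕ) = σ' (π i) c + s c) ∧
      (∀ (i : Fin k) (c : Fin q), (σ' i c : ℕ) = υ i c + t c) then x else 0) =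
    if ∀ (i : Fin k) (c : Fin q), (σ i c : ℕ) = υ (π i) c + (s c + t c) then x else 0 := by
  by_cases hc : ∀ (i : Fin k) (c : Fin q), (σ i c : ℕ) = υ (π i) c + (s c + t c)
  · rw [if_pos hc]
    have hlt : ∀ (j : Fin k) (c : Fin q), (υ j c : ℕ) + t c < 2 * h := by
      intro j c
      have h1 := hc (π.symm j) c
      rw [Equiv.apply_symm_apply] at h1
      have h2 := (σ (π.symm j) c).2
      omega
    let σ0 : Fin k ↪ Yt q h := ⟨fun j c => ⟨(υ j c : ℕ) + t c, hlt j c⟩, by
      intro j j' hj
      apply υ.injective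
      funext c
      have h1 := congrArg (fun f : Yt q h => (f c : ℕ)) hj
      simp only at h1
      apply Fin.ext
      omega⟩
    have hiff : ∀ σ' : Fin k ↪ Yt q h,
        ((∀ (i : Fin k) (c : Fin q), (σ i c : ℕ) = σ' (π i) c + s c) ∧
          (∀ (i : Fin k) (c : Fin q), (σ' i c : ℕ) = υ i c + t c)) ↔ σ' = σ0 := by
      intro σ'
      constructor
      · rintro ⟨_, h2⟩
        ext i c
        exact h2 i c
      · rintro rfl
        refine ⟨fun i c => ?_, fun i c => rfl⟩
        have h1 := hc i c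
        show (σ i c : ℕ) = ((υ (π i) c : ℕ) + t c) + s c
        omega
    rw [Finset.sum_eq_single σ0]
    · exact if_pos ((hiff σ0).2 rfl)
    · intro σ' _ hne
      exact if_neg (fun h1 => hne ((hiff σ').1 h1))
    · intro h1
      exact absurd (Finset.mem_univ _) h1
  · rw [if_neg hc]
    refine Finset.sum_eq_zero fun σ' _ => if_neg ?_
    rintro ⟨h1, h2⟩
    apply hc
    intro i c
    have h3 := h1 i c
    have h4 := h2 (π i) c
    omega

/-- the chain for fixed permutations -/
theorem key (m : ℕ) : ∀ (s : Fin m → Fin q → ℕ) (π : Fin m → Equiv.Perm (Fin k))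
    (F : (Fin k ↪ Yt q h) → S),
    (∀ (υ : Fin k ↪ Yt q h) (ρ : Equiv.Perm (Fin k)), F (ρ.toEmbedding.trans υ) = F υ) →
    ∀ σ : Fin k ↪ Yt q h,
    (∑ τ : Fin (m + 1) → (Fin k ↪ Yt q h),
      (if τ 0 = σ ∧ ∀ (l : Fin m) (i : Fin k) (c : Fin q),
        (τ l.castSucc i c : ℕ) = τ l.succ (π l i) c + s l c then F (τ (Fin.last m)) else 0)) =
    ∑ υ : Fin k ↪ Yt q h,
      if ∀ (i : Fin k) (c : Fin q), (σ i c : ℕ) = υ i c + ∑ l, s l c then F υ else 0 := by
  induction m with
  | zero =>
    intro s π F hF σ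
    have h1 : (∑ τ : Fin (0 + 1) → (Fin k ↪ Yt q h),
      (if τ 0 = σ ∧ ∀ (l : Fin 0) (i : Fin k) (c : Fin q),
        (τ l.castSucc i c : ℕ) = τ l.succ (π l i) c + s l c then F (τ (Fin.last 0)) else 0)) =
        F σ := by
      rw [Finset.sum_eq_single (fun _ => σ)]
      · rw [if_pos ⟨rfl, fun l => l.elim0⟩]
      · intro τ _ hne
        refine if_neg fun h2 => hne ?_
        funext j
        have hj : j = 0 := Fin.ext (by have := j.2; simp only [Fin.val_zero]; omega)
        rw [hj, h2.1]
      · intro h2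
        exact absurd (Finset.mem_univ _) h2
    rw [h1, Finset.sum_eq_single σ]
    · rw [if_pos]
      intro i c
      simp
    · intro υ _ hne
      refine if_neg fun h2 => hne ?_
      ext i c
      have := h2 i c
      simp at this
      exact this.symm
    · intro h2
      exact absurd (Finset.mem_univ _) h2
  | succ m ih =>
    intro s π F hF σ
    have h1 : (∑ τ : Fin (m + 1 + 1) → (Fin k ↪ Yt q h),
        (if τ 0 = σ ∧ ∀ (l : Fin (m + 1)) (i : Fin k) (c : Fin q),
          (τ l.castSucc i c : ℕ) = τ l.succ (π l i) c + s l c then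
            F (τ (Fin.last (m + 1))) else 0)) =
        ∑ τ' : Fin (m + 1) → (Fin k ↪ Yt q h),
          (if (∀ (i : Fin k) (c : Fin q), (σ i c : ℕ) = τ' 0 (π 0 i) c + s 0 c) ∧
            ∀ (l : Fin m) (i : Fin k) (c : Fin q),
              (τ' l.castSucc i c : ℕ) = τ' l.succ (π l.succ i) c + s l.succ c then
            F (τ' (Fin.last m)) else 0) := by
      rw [← (Fin.consEquiv (fun _ : Fin (m + 1 + 1) => (Fin k ↪ Yt q h))).sum_comp,
        Fintype.sum_prod_type, Finset.sum_eq_single σ]
      · refine Finset.sum_congr rfl fun τ' _ => ?_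
        refine if_congr ?_ rfl rfl
        constructor
        · rintro ⟨_, h2⟩
          refine ⟨fun i c => h2 0 i c, fun l i c => h2 l.succ i c⟩
        · rintro ⟨h2, h3⟩
          refine ⟨rfl, fun l => ?_⟩
          refine Fin.cases ?_ (fun l => ?_) l
          · exact h2
          · exact h3 l
      · intro τ0 _ hne
        refine Finset.sum_eq_zero fun τ' _ => if_neg ?_
        rintro ⟨h2, _⟩
        exact hne h2
      · intro h2
        exact absurd (Finset.mem_univ _) h2
    rw [h1]
    have h2 : ∀ τ' : Fin (m + 1) → (Fin k ↪ Yt q h),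
        (if (∀ (i : Fin k) (c : Fin q), (σ i c : ℕ) = τ' 0 (π 0 i) c + s 0 c) ∧
            ∀ (l : Fin m) (i : Fin k) (c : Fin q),
              (τ' l.castSucc i c : ℕ) = τ' l.succ (π l.succ i) c + s l.succ c then
            F (τ' (Fin.last m)) else 0) =
        ∑ σ' : Fin k ↪ Yt q h,
          (if (∀ (i : Fin k) (c : Fin q), (σ i c : ℕ) = σ' (π 0 i) c + s 0 c) then
            (if τ' 0 = σ' ∧ ∀ (l : Fin m) (i : Fin k) (c : Fin q),
              (τ' l.castSucc i c : ℕ) = τ' l.succ (π l.succ i) c + s l.succ c then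
              F (τ' (Fin.last m)) else 0) else 0) := by
      intro τ'
      rw [Finset.sum_eq_single (τ' 0)]
      · rw [← ite_and]
        exact if_congr (by tauto) rfl rfl
      · intro σ' _ hne
        split_ifs with h3 h4
        · exact (hne h4.1.symm).elim
        · rfl
        · rfl
      · intro h3
        exact absurd (Finset.mem_univ _) h3
    simp only [h2]
    rw [Finset.sum_comm]
    have h3 : ∀ σ' : Fin k ↪ Yt q h,
        (∑ τ' : Fin (m + 1) → (Fin k ↪ Yt q h),
          (if (∀ (i : Fin k) (c : Fin q), (σ i c : ℕ) = σ' (π 0 i) c + s 0 c) then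
            (if τ' 0 = σ' ∧ ∀ (l : Fin m) (i : Fin k) (c : Fin q),
              (τ' l.castSucc i c : ℕ) = τ' l.succ (π l.succ i) c + s l.succ c then
              F (τ' (Fin.last m)) else 0) else 0)) =
        ∑ υ : Fin k ↪ Yt q h,
          (if (∀ (i : Fin k) (c : Fin q), (σ i c : ℕ) = σ' (π 0 i) c + s 0 c) ∧
            (∀ (i : Fin k) (c : Fin q), (σ' i c : ℕ) = υ i c + ∑ l : Fin m, s l.succ c) then
            F υ else 0) := by
      intro σ'
      by_cases h4 : ∀ (i : Fin k) (c : Fin q), (σ i c : ℕ) = σ' (π 0 i) c + s 0 c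
      · simp only [if_pos h4]
        rw [ih (fun l => s l.succ) (fun l => π l.succ) F hF σ']
        refine Finset.sum_congr rfl fun υ _ => if_congr ?_ rfl rfl
        exact ⟨fun h5 => ⟨h4, h5⟩, fun h5 => h5.2⟩
      · simp only [if_neg h4]
        rw [Finset.sum_const_zero]
        symm
        refine Finset.sum_eq_zero fun υ _ => if_neg fun h5 => h4 h5.1
    simp only [h3]
    rw [Finset.sum_comm]
    have h4 : ∀ υ : Fin k ↪ Yt q h,
        (∑ σ' : Fin k ↪ Yt q h,
          (if (∀ (i : Fin k) (c : Fin q), (σ i c : ℕ) = σ' (π 0 i) c + s 0 c) ∧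
            (∀ (i : Fin k) (c : Fin q), (σ' i c : ℕ) = υ i c + ∑ l : Fin m, s l.succ c) then
            F υ else 0)) =
        if ∀ (i : Fin k) (c : Fin q), (σ i c : ℕ) =
          ((π 0).toEmbedding.trans υ) i c + ∑ l, s l c then
            F ((π 0).toEmbedding.trans υ) else 0 := by
      intro υ
      rw [elim σ υ (π 0) (s 0) (fun c => ∑ l : Fin m, s l.succ c) (F υ), hF]
      refine if_congr ?_ rfl rfl
      refine forall_congr' fun i => forall_congr' fun c => ?_
      rw [Fin.sum_univ_succ]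
      rfl
    simp only [h4]
    let e : (Fin k ↪ Yt q h) ≃ (Fin k ↪ Yt q h) :=
      { toFun := fun υ => (π 0).toEmbedding.trans υ
        invFun := fun υ => (π 0).symm.toEmbedding.trans υ
        left_inv := by
          intro υ
          ext i c
          simp
        right_inv := by
          intro υ
          ext i c
          simp }
    exact e.sum_comp (fun υ => if ∀ (i : Fin k) (c : Fin q), (σ i c : ℕ) =
      υ i c + ∑ l, s l c then F υ else 0)

end CHAIN

/-- **Piece CHAIN** -/
theorem t_Chain : S_Chain := by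
  intro q h k m S _ s Ψ hΨ σ
  rw [Finset.sum_comm]
  have h1 : ∀ π : Fin m → Equiv.Perm (Fin k),
      (∑ τ : Fin (m + 1) → (Fin k ↪ Yt q h),
        (if τ 0 = σ ∧ ∀ (l : Fin m) (i : Fin k) (c : Fin q),
          (τ l.castSucc i c : ℕ) = τ l.succ (π l i) c + s l c then
            Ψ σ (τ (Fin.last m)) else 0)) =
      ∑ υ : Fin k ↪ Yt q h,
        if ∀ (i : Fin k) (c : Fin q), (σ i c : ℕ) = υ i c + ∑ l, s l c then Ψ σ υ else 0 :=
    fun π => CHAIN.key m s π (Ψ σ) (fun υ ρ => hΨ σ υ ρ) σ
  simp only [h1]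
  rw [Finset.sum_const, Finset.card_univ, Fintype.card_fun, Fintype.card_perm, Fintype.card_fin,
    Fintype.card_fin, nsmul_eq_mul]
  push_cast
  rfl

end Pool.Agent.H33B
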