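import Pool.Agent.H33B.Stm

/-!
# Project ABP: cuts of a branching program (piece CUT)
-/

set_option autoImplicit false
set_option linter.all false

open MvPolynomial

namespace Pool.Agent.H33B

namespace Cut

variable {σ V : Type} [Fintype V]

/-- one of the residue classes of the layers is small -/
theorem pigeon (P : ABP σ V) (d : ℕ) (hd : 1 ≤ d) : ∃ r, r < d ∧
    (Finset.univ.filter fun v : V => P.layer v % d = r).card * d ≤ Fintype.card V := by
  classical
  by_contra hcon
  push Not at hcon
  have h1 : ∑ r ∈ Finset.range d, (Finset.univ.filter fun v : V => P.layer v % d = r).card =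
      Fintype.card V := by
    rw [← Finset.card_univ]
    exact (Finset.card_eq_sum_card_fiberwise fun v _ => by
      rw [Finset.coe_range, Set.mem_Iio]; exact Nat.mod_lt _ (by omega)).symm
  have h2 : ∑ r ∈ Finset.range d, Fintype.card V <
      ∑ r ∈ Finset.range d, (Finset.univ.filter fun v : V => P.layer v % d = r).card * d := by
    refine Finset.sum_lt_sum_of_nonempty ⟨0, Finset.mem_range.2 (by omega)⟩ fun r hr => ?_
    exact hcon r (Finset.mem_range.1 hr)
  rw [← Finset.sum_mul, h1, Finset.sum_const, Finset.card_range, smul_eq_mul, mul_comm] at h2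
  exact lt_irrefl _ h2

/-- the sum over the paths of length `j` from `v` to `t` -/
noncomputable def bb (P : ABP σ V) (t : V) : ℕ → V → MvPolynomial σ ℂ
  | 0, v => open Classical in if v = t then 1 else 0
  | j + 1, v => ∑ w : V, if P.layer v + 1 = P.layer w then P.lab v w * bb P t j w else 0

noncomputable def be (P : ABP σ V) (t v : V) : MvPolynomial σ ℂ :=
  bb P t (P.layer t - P.layer v) v

theorem be_top (P : ABP σ V) (t v : V) (hv : P.layer v = P.layer t) :
    be P t v = open Classical in if v = t then 1 else 0 := by
  unfold be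
  rw [hv, Nat.sub_self]
  rfl

theorem be_rec (P : ABP σ V) (t v : V) (hv : P.layer v < P.layer t) :
    be P t v = ∑ w : V, if P.layer v + 1 = P.layer w then P.lab v w * be P t w else 0 := by
  unfold be
  obtain ⟨j, hj⟩ : ∃ j, P.layer t - P.layer v = j + 1 :=
    ⟨P.layer t - P.layer v - 1, by omega⟩
  rw [hj]
  change ∑ w : V, (if P.layer v + 1 = P.layer w then P.lab v w * bb P t j w else 0) = _
  refine Finset.sum_congr rfl fun w _ => ?_
  by_cases h : P.layer v + 1 = P.layer w
  · rw [if_pos h, if_pos h]
    congr 2
    omega
  · rw [if_neg h, if_neg h]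

/-- the frozen values -/
noncomputable def ll (P : ABP σ V) (cut : Finset V) : ℕ → V → MvPolynomial σ ℂ
  | 0, v => 1
  | j + 1, v => open Classical in ∑ u : V, if P.layer u + 1 = P.layer v then
      (if u ∈ cut then C (constantCoeff (P.val u)) else ll P cut j u) * P.lab u v else 0

open Classical in
theorem ll_succ (P : ABP σ V) (cut : Finset V) (j : ℕ) (v : V) :
    ll P cut (j + 1) v = ∑ u : V, if P.layer u + 1 = P.layer v then
      (if u ∈ cut then C (constantCoeff (P.val u)) else ll P cut j u) * P.lab u v else 0 := rfl

noncomputable def lf (P : ABP σ V) (cut : Finset V) (v : V) : MvPolynomial σ ℂ :=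
  ll P cut (P.layer v) v

noncomputable def lf' (P : ABP σ V) (cut : Finset V) (v : V) : MvPolynomial σ ℂ :=
  open Classical in if v ∈ cut then C (constantCoeff (P.val v)) else lf P cut v

theorem lf_zero (P : ABP σ V) (cut : Finset V) (v : V) (hv : P.layer v = 0) :
    lf P cut v = 1 := by
  unfold lf
  rw [hv]
  rfl

theorem lf_rec (P : ABP σ V) (cut : Finset V) (v : V) (hv : P.layer v ≠ 0) :
    lf P cut v = ∑ u : V, if P.layer u + 1 = P.layer v then lf' P cut u * P.lab u v else 0 := by
  unfold lf' lf
  obtain ⟨j, hj⟩ : ∃ j, P.layer v = j + 1 := ⟨P.layer v - 1, by omega⟩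
  have h1 : ll P cut (P.layer v) v = ll P cut (j + 1) v := by rw [hj]
  rw [h1, ll_succ]
  refine Finset.sum_congr rfl fun u _ => ?_
  by_cases h : P.layer u + 1 = P.layer v
  · rw [if_pos h, if_pos h]
    have h2 : P.layer u = j := by omega
    rw [h2]
  · rw [if_neg h, if_neg h]

theorem mod_succ {d x : ℕ} (hd : 1 ≤ d) (h : x % d + 1 ≠ d) : (x + 1) % d = x % d + 1 := by
  have h1 : x % d < d := Nat.mod_lt _ (by omega)
  have h2 : x + 1 = d * (x / d) + (x % d + 1) := by
    have := Nat.div_add_mod x d
    omega
  rw [h2, Nat.mul_add_mod]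
  exact Nat.mod_eq_of_lt (by omega)

/-- the degree bound -/
theorem deg_lf (P : ABP σ V) (cut : Finset V) (T d r : ℕ) (hd : 1 ≤ d) (hr : r < d)
    (hcut : ∀ v, 0 < P.layer v → P.layer v < T → P.layer v % d = r → v ∈ cut)
    (hcut0 : ∀ v ∈ cut, 0 < P.layer v) :
    ∀ j, j ≤ T → ∀ v, P.layer v = j →
      (j = 0 → (lf P cut v).totalDegree ≤ 0) ∧
      (lf P cut v).totalDegree ≤ (j + d - 1 - r) % d + 1 := by
  intro j
  induction j with
  | zero =>
    intro _ v hv
    rw [lf_zero P cut v hv]
    exact ⟨fun _ => by rw [totalDegree_one], by rw [totalDegree_one]; omega⟩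
  | succ j ih =>
    intro hj v hv
    refine ⟨fun h => by omega, ?_⟩
    rw [lf_rec P cut v (by omega)]
    refine totalDegree_finsetSum_le fun u _ => ?_
    by_cases h : P.layer u + 1 = P.layer v
    · rw [if_pos h]
      refine (totalDegree_mul _ _).trans ?_
      have h1 := P.lab_deg u v
      have h2 : P.layer u = j := by omega
      have h3 : (lf' P cut u).totalDegree ≤ (j + 1 + d - 1 - r) % d := by
        unfold lf'
        by_cases hu : u ∈ cut
        · rw [if_pos hu, totalDegree_C]
          exact Nat.zero_le _
        · rw [if_neg hu]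
          obtain ⟨h4, h5⟩ := ih (by omega) u h2
          rcases Nat.eq_zero_or_pos j with h0 | h0
          · exact (h4 h0).trans (Nat.zero_le _)
          · have h6 : j % d ≠ r := by
              intro h7
              exact hu (hcut u (by omega) (by omega) (by rw [h2]; exact h7))
            have h8 : (j + d - 1 - r) % d + 1 ≠ d := by
              intro h9
              apply h6
              have h10 := Nat.div_add_mod (j + d - 1 - r) d
              have h11 : j = d * ((j + d - 1 - r) / d) + r := by omega
              rw [h11, Nat.mul_add_mod]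
              exact Nat.mod_eq_of_lt hr
            have h12 := mod_succ hd h8
            have h13 : j + d - 1 - r + 1 = j + 1 + d - 1 - r := by omega
            rw [h13] at h12
            rw [h12]
            exact h5
      omega
    · rw [if_neg h, totalDegree_zero]
      exact Nat.zero_le _

section main

variable (P : ABP σ V) (t : V) (cut : Finset V) (J : Ideal (MvPolynomial σ ℂ))

/-- `α v` is congruent to its frozen value -/
theorem val_sub (hJ : ∀ v ∈ cut, P.val v - C (constantCoeff (P.val v)) ∈ J) :
    ∀ j, ∀ v, P.layer v = j → P.val v - lf' P cut v ∈ J := by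
  intro j
  induction j with
  | zero =>
    intro v hv
    by_cases h : v ∈ cut
    · unfold lf'
      rw [if_pos h]
      exact hJ v h
    · unfold lf'
      rw [if_neg h, lf_zero P cut v hv, P.eq_src v hv, P.val_src, sub_self]
      exact J.zero_mem
  | succ j ih =>
    intro v hv
    by_cases h : v ∈ cut
    · unfold lf'
      rw [if_pos h]
      exact hJ v h
    · have h1 : lf' P cut v = lf P cut v := by
        unfold lf'
        rw [if_neg h]
      rw [h1, lf_rec P cut v (by omega), P.val_eq v (by omega), ← Finset.sum_sub_distrib]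
      refine J.sum_mem fun u _ => ?_
      by_cases hu : P.layer u + 1 = P.layer v
      · rw [if_pos hu, if_pos hu, ← sub_mul]
        exact J.mul_mem_right _ (ih u (by omega))
      · rw [if_neg hu, if_neg hu, sub_self]
        exact J.zero_mem

/-- sum over a layer -/
noncomputable def ls (j : ℕ) (F : V → MvPolynomial σ ℂ) : MvPolynomial σ ℂ :=
  ∑ v : V, if P.layer v = j then F v else 0

theorem ls_sub (j : ℕ) (F G : V → MvPolynomial σ ℂ) :
    ls P j F - ls P j G = ls P j (fun v => F v - G v) := by
  unfold ls
  rw [← Finset.sum_sub_distrib]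
  refine Finset.sum_congr rfl fun v _ => ?_
  split_ifs
  · rfl
  · exact sub_self _

theorem ls_mem (j : ℕ) (F : V → MvPolynomial σ ℂ) (h : ∀ v, P.layer v = j → F v ∈ J) :
    ls P j F ∈ J := by
  unfold ls
  refine J.sum_mem fun v _ => ?_
  split_ifs with hv
  · exact h v hv
  · exact J.zero_mem

theorem ls_congr {j : ℕ} {F G : V → MvPolynomial σ ℂ} (h : ∀ v, P.layer v = j → F v = G v) :
    ls P j F = ls P j G := by
  unfold ls
  refine Finset.sum_congr rfl fun v _ => ?_
  split_ifs with hv
  · exact h v hv
  · rfl

theorem ls_add (j : ℕ) (F G : V → MvPolynomial σ ℂ) :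
    ls P j (fun v => F v + G v) = ls P j F + ls P j G := by
  unfold ls
  rw [← Finset.sum_add_distrib]
  refine Finset.sum_congr rfl fun v _ => ?_
  split_ifs
  · rfl
  · exact (add_zero _).symm

/-- One step: `a' v = ∑_u [layer u + 1 = layer v] a u * lab u v` for `v` in layer `j + 1`. -/
theorem step (i : σ) (j : ℕ) (hj : j < P.layer t) (a a' : V → MvPolynomial σ ℂ)
    (ha : ∀ v, P.layer v = j + 1 → a' v = ∑ u : V,
      if P.layer u + 1 = P.layer v then a u * P.lab u v else 0) :
    ls P (j + 1) (fun v => pderiv i (a' v) * be P t v) =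
      ls P j (fun u => pderiv i (a u) * be P t u) +
      ls P j (fun u => a u * ls P (j + 1) (fun v => pderiv i (P.lab u v) * be P t v)) := by
  rw [← ls_add]
  have h1 : ls P (j + 1) (fun v => pderiv i (a' v) * be P t v) =
      ls P (j + 1) (fun v => ∑ u : V, if P.layer u = j then
        (pderiv i (a u) * P.lab u v + a u * pderiv i (P.lab u v)) * be P t v else 0) := by
    refine ls_congr P fun v hv => ?_
    rw [ha v hv, map_sum, Finset.sum_mul]
    refine Finset.sum_congr rfl fun u _ => ?_
    by_cases h : P.layer u = j
    · rw [if_pos (by omega), if_pos h, Derivation.leibniz, smul_eq_mul, smul_eq_mul]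
      ring
    · rw [if_neg (by omega), if_neg h, map_zero, zero_mul]
  rw [h1]
  unfold ls
  have h2 : ∀ v : V, (if P.layer v = j + 1 then (∑ u : V, if P.layer u = j then
        (pderiv i (a u) * P.lab u v + a u * pderiv i (P.lab u v)) * be P t v else 0) else 0) =
      ∑ u : V, if P.layer u = j then (if P.layer v = j + 1 then
        (pderiv i (a u) * P.lab u v + a u * pderiv i (P.lab u v)) * be P t v else 0) else 0 := by
    intro v
    by_cases h : P.layer v = j + 1
    · rw [if_pos h]
      refine Finset.sum_congr rfl fun u _ => ?_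
      rw [if_pos h]
    · rw [if_neg h]
      symm
      refine Finset.sum_eq_zero fun u _ => ?_
      rw [if_neg h, ite_self]
  rw [Finset.sum_congr rfl fun v _ => h2 v, Finset.sum_comm]
  refine Finset.sum_congr rfl fun u _ => ?_
  by_cases h : P.layer u = j
  · simp only [if_pos h]
    rw [be_rec P t u (by omega), Finset.mul_sum, Finset.mul_sum, ← Finset.sum_add_distrib]
    refine Finset.sum_congr rfl fun v _ => ?_
    by_cases hv : P.layer v = j + 1
    · rw [if_pos hv, if_pos (by omega), if_pos hv]
      ring
    · rw [if_neg hv, if_neg (by omega), if_neg hv, mul_zero, mul_zero, add_zero]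
  · simp only [if_neg h]
    exact Finset.sum_const_zero

/-- The induction over the layers. -/
theorem induct (i : σ) (hJ : ∀ v ∈ cut, P.val v - C (constantCoeff (P.val v)) ∈ J)
    (hJb : ∀ v ∈ cut, be P t v - C (constantCoeff (be P t v)) ∈ J) :
    ∀ j, j ≤ P.layer t →
      ls P j (fun v => pderiv i (P.val v) * be P t v) -
        ls P j (fun v => pderiv i (lf P cut v) * be P t v) -
        (∑ v ∈ cut, if P.layer v < j then C (constantCoeff (be P t v)) * pderiv i (lf P cut v)
          else 0) ∈ J := by
  classical
  intro j
  induction j with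
  | zero =>
    intro _
    have h1 : ls P 0 (fun v => pderiv i (P.val v) * be P t v) = 0 := by
      unfold ls
      refine Finset.sum_eq_zero fun v _ => ?_
      split_ifs with hv
      · change pderiv i (P.val v) * be P t v = 0
        rw [P.eq_src v hv, P.val_src, pderiv_one, zero_mul]
      · rfl
    have h2 : ls P 0 (fun v => pderiv i (lf P cut v) * be P t v) = 0 := by
      unfold ls
      refine Finset.sum_eq_zero fun v _ => ?_
      split_ifs with hv
      · change pderiv i (lf P cut v) * be P t v = 0
        rw [lf_zero P cut v hv, pderiv_one, zero_mul]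
      · rfl
    have h3 : (∑ v ∈ cut, if P.layer v < 0 then
        C (constantCoeff (be P t v)) * pderiv i (lf P cut v) else 0) = 0 := by
      refine Finset.sum_eq_zero fun v _ => ?_
      rw [if_neg (Nat.not_lt_zero _)]
    rw [h1, h2, h3, sub_zero, sub_zero]
    exact J.zero_mem
  | succ j ih =>
    intro hj
    have h0 := ih (by omega)
    rw [step P t i j (by omega) P.val P.val (fun v hv => P.val_eq v (by omega)),
      step P t i j (by omega) (lf' P cut) (lf P cut) (fun v hv => lf_rec P cut v (by omega))]
    -- the difference of the error terms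
    have h1 : ls P j (fun u => P.val u *
          ls P (j + 1) (fun v => pderiv i (P.lab u v) * be P t v)) -
        ls P j (fun u => lf' P cut u *
          ls P (j + 1) (fun v => pderiv i (P.lab u v) * be P t v)) ∈ J := by
      rw [ls_sub]
      refine ls_mem P J j _ fun u hu => ?_
      rw [← sub_mul]
      exact J.mul_mem_right _ (val_sub P cut J hJ j u hu)
    -- `lf'` and `lf`
    have h2 : ls P j (fun v => pderiv i (lf P cut v) * be P t v) -
        ls P j (fun v => pderiv i (lf' P cut v) * be P t v) =
        ∑ v ∈ cut, if P.layer v = j then pderiv i (lf P cut v) * be P t v else 0 := by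
      rw [ls_sub]
      unfold ls
      rw [← Finset.sum_subset (Finset.subset_univ cut)]
      · refine Finset.sum_congr rfl fun v hv => ?_
        have h3 : lf' P cut v = C (constantCoeff (P.val v)) := by
          unfold lf'
          rw [if_pos hv]
        simp only [h3, pderiv_C, zero_mul, sub_zero]
      · intro v _ hv
        have h3 : lf' P cut v = lf P cut v := by
          unfold lf'
          rw [if_neg hv]
        simp only [h3, sub_self, ite_self]
    have h4 : (∑ v ∈ cut, if P.layer v = j then pderiv i (lf P cut v) * be P t v else 0) -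
        (∑ v ∈ cut, if P.layer v = j then
          C (constantCoeff (be P t v)) * pderiv i (lf P cut v) else 0) ∈ J := by
      rw [← Finset.sum_sub_distrib]
      refine J.sum_mem fun v hv => ?_
      by_cases h : P.layer v = j
      · rw [if_pos h, if_pos h, mul_comm (C _), ← mul_sub]
        exact J.mul_mem_left _ (hJb v hv)
      · rw [if_neg h, if_neg h, sub_self]
        exact J.zero_mem
    have h5 : (∑ v ∈ cut, if P.layer v < j + 1 then
          C (constantCoeff (be P t v)) * pderiv i (lf P cut v) else 0) =
        (∑ v ∈ cut, if P.layer v < j then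
          C (constantCoeff (be P t v)) * pderiv i (lf P cut v) else 0) +
        (∑ v ∈ cut, if P.layer v = j then
          C (constantCoeff (be P t v)) * pderiv i (lf P cut v) else 0) := by
      rw [← Finset.sum_add_distrib]
      refine Finset.sum_congr rfl fun v _ => ?_
      rcases lt_trichotomy (P.layer v) j with h | h | h
      · rw [if_pos (by omega), if_pos h, if_neg (by omega), add_zero]
      · rw [if_pos (by omega), if_neg (by omega), if_pos h, zero_add]
      · rw [if_neg (by omega), if_neg (by omega), if_neg (by omega), add_zero]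
    rw [h5]
    have h6 := J.add_mem (J.add_mem h0 h1) h4
    convert h6 using 1
    rw [← h2]
    ring

end main

end Cut

open Cut in
theorem t_Cut : S_Cut := by
  classical
  intro σ V _ P t d hd
  obtain ⟨r, hr, hcard⟩ := pigeon P d hd
  obtain ⟨cut, hcut⟩ : ∃ cut : Finset V, cut = (Finset.univ.filter fun v : V =>
      P.layer v % d = r).filter fun v => 0 < P.layer v ∧ P.layer v < P.layer t := ⟨_, rfl⟩
  have hmem : ∀ v, v ∈ cut ↔ P.layer v % d = r ∧ 0 < P.layer v ∧ P.layer v < P.layer t := by
    intro v
    rw [hcut, Finset.mem_filter, Finset.mem_filter]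
    simp
  have hcc : cut.card * d ≤ Fintype.card V := by
    refine le_trans (Nat.mul_le_mul_right _ ?_) hcard
    rw [hcut]
    exact Finset.card_filter_le _ _
  obtain ⟨e⟩ : Nonempty (Fin (Fintype.card (cut ⊕ cut)) ≃ cut ⊕ cut) :=
    ⟨(Fintype.equivFin _).symm⟩
  obtain ⟨G, hG⟩ : ∃ G : cut ⊕ cut → MvPolynomial σ ℂ, G = Sum.elim
      (fun v : cut => P.val v - C (constantCoeff (P.val v)))
      (fun v : cut => be P t v - C (constantCoeff (be P t v))) := ⟨_, rfl⟩
  obtain ⟨J, hJ⟩ : ∃ J : Ideal (MvPolynomial σ ℂ),
      J = Ideal.span (Set.range fun j => G (e j)) := ⟨_, rfl⟩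
  have hJ1 : ∀ v ∈ cut, P.val v - C (constantCoeff (P.val v)) ∈ J := by
    intro v hv
    rw [hJ]
    refine Ideal.subset_span ⟨e.symm (Sum.inl ⟨v, hv⟩), ?_⟩
    simp only [Equiv.apply_symm_apply, hG, Sum.elim_inl]
  have hJ2 : ∀ v ∈ cut, be P t v - C (constantCoeff (be P t v)) ∈ J := by
    intro v hv
    rw [hJ]
    refine Ideal.subset_span ⟨e.symm (Sum.inr ⟨v, hv⟩), ?_⟩
    simp only [Equiv.apply_symm_apply, hG, Sum.elim_inr]
  have hdeg : ∀ v, P.layer v ≤ P.layer t → (lf P cut v).totalDegree ≤ d := by
    intro v hv
    have h1 := (deg_lf P cut (P.layer t) d r hd hr (fun v h1 h2 h3 => (hmem v).2 ⟨h3, h1, h2⟩)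
      (fun v hv => ((hmem v).1 hv).2.1) (P.layer v) hv v rfl).2
    have h2 : (P.layer v + d - 1 - r) % d < d := Nat.mod_lt _ (by omega)
    omega
  refine ⟨Fintype.card (cut ⊕ cut), fun j => G (e j),
    lf P cut t + ∑ v ∈ cut, C (constantCoeff (be P t v)) * lf P cut v, ?_, ?_, ?_, ?_⟩
  · rw [Fintype.card_sum, Fintype.card_coe]
    nlinarith
  · intro j
    change constantCoeff (G (e j)) = 0
    generalize e j = x
    rw [hG]
    rcases x with v | v
    · simp
    · simp
  · refine (totalDegree_add _ _).trans (max_le (hdeg t le_rfl) ?_)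
    refine totalDegree_finsetSum_le fun v hv => ?_
    refine (totalDegree_mul _ _).trans ?_
    rw [totalDegree_C, zero_add]
    exact hdeg v (((hmem v).1 hv).2.2.le)
  · intro i
    rw [← hJ]
    have h1 := induct P t cut J i hJ1 hJ2 (P.layer t) le_rfl
    have h2 : ∀ a : V → MvPolynomial σ ℂ,
        ls P (P.layer t) (fun v => pderiv i (a v) * be P t v) = pderiv i (a t) := by
      intro a
      unfold ls
      rw [Finset.sum_eq_single t]
      · rw [if_pos rfl]
        change pderiv i (a t) * be P t t = pderiv i (a t)
        rw [be_top P t t rfl, if_pos rfl, mul_one]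
      · intro v _ hv
        split_ifs with h
        · change pderiv i (a v) * be P t v = 0
          rw [be_top P t v h, if_neg hv, mul_zero]
        · rfl
      · intro h
        exact absurd (Finset.mem_univ t) h
    rw [h2, h2] at h1
    have h3 : (∑ v ∈ cut, if P.layer v < P.layer t then
        C (constantCoeff (be P t v)) * pderiv i (lf P cut v) else 0) =
        ∑ v ∈ cut, C (constantCoeff (be P t v)) * pderiv i (lf P cut v) :=
      Finset.sum_congr rfl fun v hv => if_pos ((hmem v).1 hv).2.2
    rw [h3] at h1
    have h4 : pderiv i (P.val t - (lf P cut t +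
        ∑ v ∈ cut, C (constantCoeff (be P t v)) * lf P cut v)) =
        pderiv i (P.val t) - pderiv i (lf P cut t) -
          ∑ v ∈ cut, C (constantCoeff (be P t v)) * pderiv i (lf P cut v) := by
      rw [map_sub, map_add, map_sum, sub_sub]
      congr 2
      refine Finset.sum_congr rfl fun v _ => ?_
      rw [Derivation.leibniz, pderiv_C, smul_zero, add_zero, smul_eq_mul]
    rw [h4]
    exact h1

end Pool.Agent.H33B
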