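import Pool.Agent.H33B.Stm

/-!
# Project ABP: piece FIN (`S_Fin`)
-/

set_option autoImplicit false
set_option linter.all false

open MvPolynomial

namespace Pool.Agent.H33B

namespace FinPiece

variable {σ : Type}

/-- Difference from the top component has smaller degree. -/
theorem sub_top {f : MvPolynomial σ ℂ} {e : ℕ} (he : 1 ≤ e) (hf : f.totalDegree ≤ e) :
    (f - homogeneousComponent e f).totalDegree < e := by
  classical
  rw [totalDegree, Finset.sup_lt_iff (show (⊥ : ℕ) < e from he)]
  intro μ hμ
  change μ.degree < e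
  rw [mem_support_iff, coeff_sub, coeff_homogeneousComponent] at hμ
  have h1 : coeff μ f ≠ 0 := by
    intro h; apply hμ; rw [h]; simp
  have h2 : μ.degree ≤ f.totalDegree := by
    have := le_totalDegree (mem_support_iff.2 h1)
    exact this
  have h3 : μ.degree ≠ e := by
    intro h
    apply hμ
    rw [if_pos h, sub_self]
  omega

/-- the property of having the component of degree `D` congruent to something smaller -/
def Sm (I : Ideal (MvPolynomial σ ℂ)) (P : MvPolynomial σ ℂ) : Prop :=
  ∀ D, ∃ Q : MvPolynomial σ ℂ, (Q = 0 ∨ Q.totalDegree < D) ∧ homogeneousComponent D P - Q ∈ I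

theorem Sm.add {I : Ideal (MvPolynomial σ ℂ)} {P P' : MvPolynomial σ ℂ} (h : Sm I P)
    (h' : Sm I P') : Sm I (P + P') := by
  intro D
  obtain ⟨Q, hQ, hQ'⟩ := h D
  obtain ⟨R, hR, hR'⟩ := h' D
  refine ⟨Q + R, ?_, ?_⟩
  · rcases hQ with rfl | hQ
    · rcases hR with rfl | hR
      · left; simp
      · right; simpa using hR
    · rcases hR with rfl | hR
      · right; simpa using hQ
      · right
        exact lt_of_le_of_lt (totalDegree_add Q R) (max_lt hQ hR)
  · have : homogeneousComponent D (P + P') - (Q + R) =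
        (homogeneousComponent D P - Q) + (homogeneousComponent D P' - R) := by
      rw [map_add]; ring
    rw [this]
    exact I.add_mem hQ' hR'

theorem Sm.zero {I : Ideal (MvPolynomial σ ℂ)} : Sm I (0 : MvPolynomial σ ℂ) := by
  intro D
  exact ⟨0, Or.inl rfl, by simp⟩

theorem Sm.mono_mul {I : Ideal (MvPolynomial σ ℂ)} {f : MvPolynomial σ ℂ} {e : ℕ} (he : 1 ≤ e)
    (hf : f.totalDegree ≤ e) (hfI : f ∈ I) (μ : σ →₀ ℕ) (c : ℂ) :
    Sm I (monomial μ c * homogeneousComponent e f) := by
  classical
  intro D
  have hhom : (monomial μ c * homogeneousComponent e f).IsHomogeneous (μ.degree + e) :=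
    (isHomogeneous_monomial c rfl).mul (homogeneousComponent_isHomogeneous e f)
  by_cases hD : D = μ.degree + e
  · refine ⟨- (monomial μ c * (f - homogeneousComponent e f)), Or.inr ?_, ?_⟩
    · rw [totalDegree_neg, hD]
      refine lt_of_le_of_lt (totalDegree_mul _ _) ?_
      have h1 := sub_top he hf
      have h2 : (monomial μ c).totalDegree ≤ μ.degree :=
        (isHomogeneous_monomial c rfl).totalDegree_le
      omega
    · rw [hD, homogeneousComponent_eq_self hhom]
      have : monomial μ c * homogeneousComponent e f -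
          -(monomial μ c * (f - homogeneousComponent e f)) = monomial μ c * f := by ring
      rw [this]
      exact I.mul_mem_left _ hfI
  · refine ⟨0, Or.inl rfl, ?_⟩
    rw [homogeneousComponent_of_mem (n := μ.degree + e) hhom, if_neg (by
      first
        | exact hD
        | exact fun h => hD h.symm)]
    simp

theorem Sm.mul {I : Ideal (MvPolynomial σ ℂ)} {f : MvPolynomial σ ℂ} {e : ℕ} (he : 1 ≤ e)
    (hf : f.totalDegree ≤ e) (hfI : f ∈ I) (r : MvPolynomial σ ℂ) :
    Sm I (r * homogeneousComponent e f) := by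
  induction r using MvPolynomial.induction_on' with
  | monomial μ c => exact Sm.mono_mul he hf hfI μ c
  | add p q hp hq => rw [add_mul]; exact hp.add hq

theorem Sm.of_mem {J : Type} (f : J → MvPolynomial σ ℂ) (e : J → ℕ) (he : ∀ j, 1 ≤ e j)
    (hf : ∀ j, (f j).totalDegree ≤ e j) {I : Ideal (MvPolynomial σ ℂ)} (hI : ∀ j, f j ∈ I)
    {P : MvPolynomial σ ℂ}
    (hP : P ∈ Ideal.span (Set.range fun j => homogeneousComponent (e j) (f j))) : Sm I P := by
  have key : ∀ r : MvPolynomial σ ℂ, Sm I (r * P) := by
    induction hP using Submodule.span_induction with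
    | mem x hx =>
      obtain ⟨j, rfl⟩ := hx
      intro r
      exact Sm.mul (he j) (hf j) (hI j) r
    | zero => intro r; rw [mul_zero]; exact Sm.zero
    | add x y _ _ hx hy => intro r; rw [mul_add]; exact (hx r).add (hy r)
    | smul a x _ hx => intro r; rw [smul_eq_mul, ← mul_assoc]; exact hx _
  have := key 1
  rwa [one_mul] at this

end FinPiece

open FinPiece in
theorem t_Fin : S_Fin := by
  intro σ J _ _ f e he hf htriv I hI
  classical
  set K : Ideal (MvPolynomial σ ℂ) :=
    Ideal.span (Set.range fun j => homogeneousComponent (e j) (f j)) with hK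
  have hrad : ∀ s : σ, (X s : MvPolynomial σ ℂ) ∈ K.radical := by
    intro s
    rw [← vanishingIdeal_zeroLocus_eq_radical (K := ℂ)]
    rw [mem_vanishingIdeal_iff]
    intro x hx
    have hx0 : x = 0 := by
      refine htriv x fun j => ?_
      have := (mem_zeroLocus_iff.1 hx) _ (Ideal.subset_span ⟨j, rfl⟩)
      rwa [aeval_eq_eval] at this
    rw [hx0]; simp
  choose M0 hM0 using fun s => Ideal.mem_radical_iff.1 (hrad s)
  set M : ℕ := ∑ s, M0 s with hM
  have hMs : ∀ s, (X s : MvPolynomial σ ℂ) ^ M ∈ K := by
    intro s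
    have h1 : M0 s ≤ M := Finset.single_le_sum (f := M0) (fun _ _ => Nat.zero_le _) (Finset.mem_univ s)
    obtain ⟨t, ht⟩ := Nat.exists_eq_add_of_le h1
    rw [ht, pow_add]
    exact K.mul_mem_right _ (hM0 s)
  set N : ℕ := M * Fintype.card σ with hN
  -- monomials of degree larger than `N` are in `K`
  have hmon : ∀ (μ : σ →₀ ℕ) (c : ℂ), N < μ.degree → monomial μ c ∈ K := by
    intro μ c hμ
    have h1 : ∃ s, M ≤ μ s := by
      by_contra hcon
      push Not at hcon
      have h2 : μ.degree ≤ N := by
        rw [Finsupp.degree_eq_sum]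
        calc ∑ s, μ s ≤ ∑ _s : σ, M := Finset.sum_le_sum fun s _ => (hcon s).le
          _ = N := by rw [Finset.sum_const, Finset.card_univ, smul_eq_mul, mul_comm]
      omega
    obtain ⟨s, hs⟩ := h1
    have h2 : monomial μ c = monomial (μ - Finsupp.single s M) c * X s ^ M := by
      rw [X_pow_eq_monomial, monomial_mul, mul_one]
      congr 1
      rw [tsub_add_cancel_of_le]
      exact Finsupp.single_le_iff.2 hs
    rw [h2]
    exact K.mul_mem_left _ (hMs s)
  have hcomp : ∀ (P : MvPolynomial σ ℂ) (D : ℕ), N < D → homogeneousComponent D P ∈ K := by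
    intro P D hD
    rw [(homogeneousComponent D P).as_sum]
    refine Ideal.sum_mem _ fun μ hμ => hmon μ _ ?_
    have h1 := homogeneousComponent_isHomogeneous D P (mem_support_iff.1 hμ)
    have h2 : μ.degree = D := by
      rw [← h1]
      exact (Finsupp.degree_eq_weight_one (R := ℕ) ▸ rfl)
    omega
  -- reduction
  have hred : ∀ n : ℕ, ∀ P : MvPolynomial σ ℂ, P.totalDegree ≤ n →
      ∃ Q : MvPolynomial σ ℂ, Q.totalDegree ≤ N ∧ P - Q ∈ I := by
    intro n
    induction n with
    | zero => intro P hP; exact ⟨P, by omega, by simp⟩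
    | succ n ih =>
      intro P hP
      by_cases hPN : P.totalDegree ≤ N
      · exact ⟨P, hPN, by simp⟩
      · push Not at hPN
        by_cases hPn : P.totalDegree ≤ n
        · exact ih P hPn
        · have hPd : P.totalDegree = n + 1 := by omega
          obtain ⟨Q, hQ, hQ'⟩ := Sm.of_mem f e he hf hI (hcomp P (n + 1) (by omega)) (n + 1)
          rw [homogeneousComponent_eq_self (homogeneousComponent_isHomogeneous _ _)] at hQ'
          have h1 : (P - homogeneousComponent (n + 1) P).totalDegree ≤ n :=
            Nat.lt_succ_iff.1 (sub_top (by omega) hP)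
          have h2 : (P - homogeneousComponent (n + 1) P + Q).totalDegree ≤ n := by
            refine (totalDegree_add _ _).trans (max_le h1 ?_)
            rcases hQ with rfl | hQ
            · simp
            · omega
          obtain ⟨Q2, hQ2, hQ2'⟩ := ih _ h2
          refine ⟨Q2, hQ2, ?_⟩
          have : P - Q2 = (P - homogeneousComponent (n + 1) P + Q - Q2) +
              (homogeneousComponent (n + 1) P - Q) := by ring
          rw [this]
          exact I.add_mem hQ2' hQ'
  refine Module.Finite.of_surjective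
    ((Ideal.Quotient.mkₐ ℂ I).toLinearMap.comp (restrictTotalDegree σ ℂ N).subtype) ?_
  intro x
  obtain ⟨P, rfl⟩ := Ideal.Quotient.mk_surjective x
  obtain ⟨Q, hQ, hQ'⟩ := hred P.totalDegree P le_rfl
  refine ⟨⟨Q, (mem_restrictTotalDegree _ _ _).2 hQ⟩, ?_⟩
  change Ideal.Quotient.mk I Q = Ideal.Quotient.mk I P
  exact ((Ideal.Quotient.eq).2 hQ').symm

end Pool.Agent.H33B
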