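import Pool.Agent.H33B.Stm
import Pool.Agent.Helper1x.CL.GadgetFin

/-!
# Piece GAD of project ABP (helper33): the gadget with any number of layers
(generalizes `Helper1x/CL/Gadget.lean` of helper56)
-/

set_option autoImplicit false
set_option linter.all false
set_option synthInstance.maxSize 100000

open MvPolynomial

namespace Pool.Agent.H33B.Gad

open H1CL H1CL.Gad

section stations

variable {A : Type} [CommRing A] [Algebra ℂ A]
variable {L G Y : Type} [Fintype L] [DecidableEq L] [Fintype G] [DecidableEq G] [Nonempty G]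
  [Fintype Y] [DecidableEq Y]

variable (L G Y) in
/-- stations -/
abbrev XX : Type := L × G × Y

variable (L) in
/-- positions -/
abbrev PP (k : ℕ) : Type := L × Fin k

variable (L G) in
/-- bundle columns -/
abbrev BB (k : ℕ) [Fintype G] : Type := L × Fin (k * (Fintype.card G - 1))

variable (M : XX L G Y → XX L G Y → A)
variable {D D' : Type}

/-- the form `A_x` in the variables `c` -/
noncomputable def Af (c : XX L G Y → D) (x : XX L G Y) : MvPolynomial D A :=
  ∑ y, C (M x y) * X (c y)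

/-- the sum of the exit columns -/
noncomputable def Om {t : ℕ} (ω : Fin t → D) : MvPolynomial D A := ∑ i, X (ω i)

/-- what remains of the stations after the elimination of `κ` -/
noncomputable def Qx {t : ℕ} (c c' : XX L G Y → D) (ω : Fin t → D) : MvPolynomial D A :=
  ∏ x, (Af M c x * Om ω - (X (c x) + X (c' x)) ^ 2)

/-- group sums -/
noncomputable def Gam (c' : XX L G Y → D) (l : L) (g : G) : MvPolynomial D A :=
  ∑ y, X (c' (l, g, y))

/-- the enforcers -/
noncomputable def En (k : ℕ) (ζ : ℂ) (β : BB L G k → D) (c' : XX L G Y → D) : MvPolynomial D A :=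
  ∏ l : L, ∏ g : G, ∏ i : Fin k,
    ((∑ b, X (β (l, b))) - algebraMap ℂ (MvPolynomial D A) (ζ ^ (i : ℕ)) * Gam c' l g)

theorem rename_Af (f : D → D') (c : XX L G Y → D) (x : XX L G Y) :
    rename f (Af M c x) = Af M (f ∘ c) x := by
  simp [Af]

theorem rename_Om {t : ℕ} (f : D → D') (ω : Fin t → D) :
    rename f (Om ω : MvPolynomial D A) = Om (f ∘ ω) := by
  simp [Om]

theorem rename_Qx {t : ℕ} (f : D → D') (c c' : XX L G Y → D) (ω : Fin t → D) :
    rename f (Qx M c c' ω) = Qx M (f ∘ c) (f ∘ c') (f ∘ ω) := by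
  simp only [Qx, map_prod, map_sub, map_mul, map_pow, map_add, rename_X, rename_Af, rename_Om,
    Function.comp]

theorem rename_Gam (f : D → D') (c' : XX L G Y → D) (l : L) (g : G) :
    rename f (Gam c' l g : MvPolynomial D A) = Gam (f ∘ c') l g := by
  simp [Gam]

theorem rename_alg (f : D → D') (z : ℂ) :
    rename f (algebraMap ℂ (MvPolynomial D A) z) = algebraMap ℂ (MvPolynomial D' A) z := by
  rw [IsScalarTower.algebraMap_apply ℂ A (MvPolynomial D A),
    IsScalarTower.algebraMap_apply ℂ A (MvPolynomial D' A)]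
  simp [algebraMap_eq]

theorem rename_En (k : ℕ) (ζ : ℂ) (f : D → D') (β : BB L G k → D) (c' : XX L G Y → D) :
    rename f (En k ζ β c' : MvPolynomial D A) = En k ζ (f ∘ β) (f ∘ c') := by
  simp only [En, map_prod, map_sub, map_mul, map_sum, rename_X, rename_Gam, rename_alg,
    Function.comp]

/-! ### elimination of the last blocks -/

theorem last (T8 : StmTop8) {k : ℕ} (e : PP L k → XX L G Y) (he : Function.Injective e) :
    top ((∏ x ∈ off e, (X x : MvPolynomial (XX L G Y) A)) * ∏ p, Af M id (e p)) =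
    ∑ ρ : Equiv.Perm (PP L k), ∏ p, M (e p) (e (ρ p)) := by
  have h := T8 (PP L k) (XX L G Y) A e he (fun p x => M (e p) x)
  exact h

theorem occ (T2 : StmTop2) (T5 : StmTop5) (T6 : StmTop6) {k t : ℕ}
    (ht : Fintype.card (PP L k) = t) (e : PP L k → XX L G Y) (he : Function.Injective e) :
    top (Qx M (Sum.inr ∘ Sum.inr) Sum.inl (Sum.inr ∘ Sum.inl) *
        ∏ p, (X (Sum.inl (e p)) : MvPolynomial (XX L G Y ⊕ (Fin t ⊕ XX L G Y)) A)) =
      (t.factorial : A) * ((-2) ^ (off e).card * top ((∏ x ∈ off e, X x) * ∏ p, Af M id (e p))) := by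
  have h1 : Qx M (Sum.inr ∘ Sum.inr) Sum.inl (Sum.inr ∘ Sum.inl) *
        ∏ p, (X (Sum.inl (e p)) : MvPolynomial (XX L G Y ⊕ (Fin t ⊕ XX L G Y)) A) =
      ((∏ x, (r (Af M Sum.inr x * Om Sum.inl) -
        (r (X (Sum.inr x)) + X (Sum.inl x)) ^ 2)) * ∏ p, X (Sum.inl (e p))) * r 1 := by
    simp only [Qx, map_mul, rename_Af, rename_Om, rename_X, map_one, mul_one, Function.comp]
  rw [h1, elim6 T2 T6 (fun x => Af M Sum.inr x * Om Sum.inl) (fun x => X (Sum.inr x)) e he 1]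
  have h2 : ((∏ x ∈ off e, (-2 * X (Sum.inr x))) * ∏ p, (Af M Sum.inr (e p) * Om Sum.inl -
      X (Sum.inr (e p)) ^ 2)) * (1 : MvPolynomial (Fin t ⊕ XX L G Y) A) =
      (∏ p, (r (Af M id (e p)) * (∑ i : Fin t, X (Sum.inl i)) + r (-(X (e p)) ^ 2))) *
        r (∏ x ∈ off e, (-2 * X x)) := by
    simp only [map_mul, map_prod, map_neg, map_pow, rename_Af, rename_X, mul_one, Function.comp_id, Om,
      map_ofNat, sub_eq_add_neg]
    rw [mul_comm]
  rw [h2, elim5 T2 T5 t ht]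
  have h3 : ((t.factorial : MvPolynomial (XX L G Y) A) * ∏ p, Af M id (e p)) *
      ∏ x ∈ off e, (-2 * X x) =
      C ((t.factorial : A) * (-2) ^ (off e).card) * ((∏ x ∈ off e, X x) * ∏ p, Af M id (e p)) := by
    rw [Finset.prod_mul_distrib, Finset.prod_const]
    simp only [map_mul, map_pow, map_neg, map_natCast, map_ofNat]
    ring
  rw [h3, top_rs, mul_assoc]

theorem occ0 (T2 : StmTop2) (T7 : StmTop7) {k t : ℕ}
    (e : PP L k → XX L G Y) (he : ¬ Function.Injective e) :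
    top (Qx M (Sum.inr ∘ Sum.inr) Sum.inl (Sum.inr ∘ Sum.inl) *
        ∏ p, (X (Sum.inl (e p)) : MvPolynomial (XX L G Y ⊕ (Fin t ⊕ XX L G Y)) A)) =
      0 := by
  have h1 : Qx M (Sum.inr ∘ Sum.inr) Sum.inl (Sum.inr ∘ Sum.inl) *
        ∏ p, (X (Sum.inl (e p)) : MvPolynomial (XX L G Y ⊕ (Fin t ⊕ XX L G Y)) A) =
      ((∏ x, (r (Af M Sum.inr x * Om Sum.inl) -
        (r (X (Sum.inr x)) + X (Sum.inl x)) ^ 2)) * ∏ p, X (Sum.inl (e p))) * r 1 := by
    simp only [Qx, map_mul, rename_Af, rename_Om, rename_X, map_one, mul_one, Function.comp]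
  rw [h1, elim7 T2 T7 (fun x => Af M Sum.inr x * Om Sum.inl) (fun x => X (Sum.inr x)) e he 1]

/-- the positions given by groups and sequences -/
def pos {k : ℕ} (g : L → G) (τ : L → Fin k → Y) : PP L k → XX L G Y :=
  fun p => (p.1, g p.1, τ p.1 p.2)

theorem pos_inj {k : ℕ} (g : L → G) (τ : L → Fin k → Y) : Function.Injective (pos g τ) ↔
      ∀ l, Function.Injective (τ l) := by
  constructor
  · intro h l a b hab
    have h1 : pos g τ (l, a) = pos g τ (l, b) := by simp [pos, hab]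
    exact (Prod.ext_iff.1 (h h1)).2
  · rintro h ⟨l, a⟩ ⟨l', b⟩ hab
    simp only [pos, Prod.mk.injEq] at hab
    obtain ⟨rfl, -, hab⟩ := hab
    rw [h l hab]

/-- the value of the gadget -/
noncomputable def val (k : ℕ) : A :=
  ∑ g : L → G, ∑ τ : L → (Fin k ↪ Y), ∑ ρ : Equiv.Perm (PP L k),
      ∏ p : PP L k, M (p.1, g p.1, τ p.1 p.2) ((ρ p).1, g (ρ p).1, τ (ρ p).1 (ρ p).2)

theorem sum_embs {k : ℕ} {N : Type} [AddCommMonoid N] (F : (L → Fin k → Y) → N)
    (hF : ∀ τ, ¬ (∀ l, Function.Injective (τ l)) → F τ = 0) :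
    ∑ τ, F τ = ∑ τ : L → (Fin k ↪ Y), F (fun l => τ l) := by
  classical
  have h1 : ∑ τ, F τ = ∑ τ ∈ Finset.univ.filter
      (fun τ : L → Fin k → Y => ∀ l, Function.Injective (τ l)), F τ := by
    rw [Finset.sum_filter]
    refine Finset.sum_congr rfl fun τ _ => ?_
    split_ifs with h
    · rfl
    · exact hF τ h
  rw [h1]
  symm
  refine Finset.sum_bij (fun τ _ => fun l => (τ l : Fin k → Y)) ?_ ?_ ?_ ?_
  · intro τ _
    rw [Finset.mem_filter]
    exact ⟨Finset.mem_univ _, fun l => (τ l).injective⟩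
  · intro τ _ τ' _ h
    funext l
    exact DFunLike.coe_injective (congrFun h l)
  · intro τ hτ
    rw [Finset.mem_filter] at hτ
    exact ⟨fun l => ⟨τ l, hτ.2 l⟩, Finset.mem_univ _, rfl⟩
  · intro τ _
    rfl

theorem layers (T2 : StmTop2) (T5 : StmTop5) (T6 : StmTop6) (T7 : StmTop7) (T8 : StmTop8) {k t : ℕ}
    (ht : Fintype.card (PP L k) = t) :
    top (Qx M (Sum.inr ∘ Sum.inr) Sum.inl (Sum.inr ∘ Sum.inl) *
        (∏ l, ∑ g, Gam (Sum.inl : XX L G Y → XX L G Y ⊕ (Fin t ⊕ XX L G Y)) l g ^ k :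
          MvPolynomial (XX L G Y ⊕ (Fin t ⊕ XX L G Y)) A)) =
      ((t.factorial : A) * (-2) ^ (Fintype.card (XX L G Y) - t)) * val M k := by
  have h1 : (∏ l, ∑ g, Gam (Sum.inl : XX L G Y → XX L G Y ⊕ (Fin t ⊕ XX L G Y)) l g ^ k :
          MvPolynomial (XX L G Y ⊕ (Fin t ⊕ XX L G Y)) A) =
      ∑ g : L → G, ∑ τ : L → Fin k → Y, ∏ p : PP L k, X (Sum.inl (pos g τ p)) := by
    have h2 : ∀ l g, (Gam (Sum.inl : XX L G Y → XX L G Y ⊕ (Fin t ⊕ XX L G Y)) l g ^ k :
          MvPolynomial (XX L G Y ⊕ (Fin t ⊕ XX L G Y)) A) =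
        ∑ τ : Fin k → Y, ∏ i, X (Sum.inl (l, g, τ i)) := by
      intro l g
      unfold Gam
      rw [Fintype.sum_pow]
    simp only [h2]
    rw [Finset.prod_univ_sum]
    simp only [Fintype.piFinset_univ]
    refine Finset.sum_congr rfl fun g _ => ?_
    rw [Finset.prod_univ_sum]
    simp only [Fintype.piFinset_univ]
    refine Finset.sum_congr rfl fun τ _ => ?_
    rw [Fintype.prod_prod_type]
    rfl
  rw [h1]
  simp only [Finset.mul_sum, map_sum]
  unfold val
  rw [Finset.mul_sum]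
  refine Finset.sum_congr rfl fun g _ => ?_
  rw [sum_embs, Finset.mul_sum]
  · refine Finset.sum_congr rfl fun τ _ => ?_
    have he : Function.Injective (pos g (fun l => (τ l : Fin k → Y))) :=
      (pos_inj g _).2 fun l => (τ l).injective
    rw [occ M T2 T5 T6 ht _ he, card_off _ he, ht, last M T8 _ he]
    simp only [pos]
    ring
  · intro τ hτ
    exact occ0 M T2 T7 _ (fun h => hτ ((pos_inj _ _).1 h))

/-! ### the bundles -/

theorem top4pi (TP : S_TopPi) (T4 : StmTop4) {S : Type} [CommRing S] [Algebra ℂ S] (k : ℕ)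
    (hk : 1 ≤ k) (ζ : ℂ) (hζ : IsPrimitiveRoot ζ k) (Γ : L → G → S) :
    top (∏ l : L, ∏ g : G, ∏ i : Fin k, ((∑ b : Fin (k * (Fintype.card G - 1)), X (l, b))
        - C (algebraMap ℂ S (ζ ^ (i : ℕ)) * Γ l g)) : MvPolynomial (BB L G k) S)
      = ∏ l, (- ((k * (Fintype.card G - 1)).factorial : S) * ∑ g, Γ l g ^ k) := by
  have h := TP L (Fin (k * (Fintype.card G - 1))) S (fun l => ∏ g : G, ∏ i : Fin k,
    ((∑ b : Fin (k * (Fintype.card G - 1)), X b) - C (algebraMap ℂ S (ζ ^ (i : ℕ)) * Γ l g)))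
  simp only [T4 k hk ζ hζ G S] at h
  rw [← h]
  congr 1
  refine Finset.prod_congr rfl fun l _ => ?_
  simp only [map_prod, map_sub, map_sum, rename_X, rename_C]

theorem bund (TP : S_TopPi) (T2 : StmTop2) (T4 : StmTop4) [Fintype D] (k : ℕ) (hk : 1 ≤ k) (ζ : ℂ)
    (hζ : IsPrimitiveRoot ζ k) (c' : XX L G Y → D) (q : MvPolynomial D A) :
    top ((En k ζ Sum.inl (Sum.inr ∘ c') : MvPolynomial (BB L G k ⊕ D) A) * r q) =
      top ((∏ l, (- ((k * (Fintype.card G - 1)).factorial : MvPolynomial D A) *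
        ∑ g, Gam c' l g ^ k)) * q) := by
  refine elim T2 _ (∏ l : L, ∏ g : G, ∏ i : Fin k, ((∑ b : Fin (k * (Fintype.card G - 1)), X (l, b))
        - C (algebraMap ℂ (MvPolynomial D A) (ζ ^ (i : ℕ)) * Gam c' l g))) q _ ?_
    (top4pi TP T4 k hk ζ hζ (fun l g => Gam c' l g))
  unfold En
  have h1 : ∀ l g, (Gam (Sum.inr ∘ c') l g : MvPolynomial (BB L G k ⊕ D) A) = r (Gam c' l g) := by
    intro l g
    rw [rename_Gam]
  have h2 : ∀ z : ℂ, algebraMap ℂ (MvPolynomial (BB L G k ⊕ D) A) z =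
      r (algebraMap ℂ (MvPolynomial D A) z) := by
    intro z
    rw [rename_alg]
  simp only [h1, h2, map_prod, map_sub, map_mul, map_sum, sumAlgEquiv_X_inl, sum_r]

theorem bundles (TP : S_TopPi) (T2 : StmTop2) (T4 : StmTop4) (T5 : StmTop5) (T6 : StmTop6)
    (T7 : StmTop7) (T8 : StmTop8)
    {k t : ℕ} (hk : 1 ≤ k) (ζ : ℂ) (hζ : IsPrimitiveRoot ζ k) (ht : Fintype.card (PP L k) = t) :
    top (Qx M (Sum.inr ∘ Sum.inr ∘ Sum.inr) (Sum.inr ∘ Sum.inl) (Sum.inr ∘ Sum.inr ∘ Sum.inl) *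
        En k ζ Sum.inl (Sum.inr ∘ Sum.inl) :
        MvPolynomial (BB L G k ⊕ (XX L G Y ⊕ (Fin t ⊕ XX L G Y))) A) =
      ((-((k * (Fintype.card G - 1)).factorial : A)) ^ Fintype.card L *
      ((t.factorial : A) * (-2) ^ (Fintype.card (XX L G Y) - t))) * val M k := by
  have h1 : (Qx M (Sum.inr ∘ Sum.inr ∘ Sum.inr) (Sum.inr ∘ Sum.inl) (Sum.inr ∘ Sum.inr ∘ Sum.inl) *
        En k ζ Sum.inl (Sum.inr ∘ Sum.inl) :
        MvPolynomial (BB L G k ⊕ (XX L G Y ⊕ (Fin t ⊕ XX L G Y))) A) =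
      En k ζ Sum.inl (Sum.inr ∘ Sum.inl) *
        r (Qx M (Sum.inr ∘ Sum.inr) Sum.inl (Sum.inr ∘ Sum.inl)) := by
    simp only [rename_Qx]
    rw [mul_comm]
  rw [h1]
  refine (bund TP T2 T4 k hk ζ hζ Sum.inl _).trans ?_
  rw [Finset.prod_mul_distrib, Finset.prod_const, Finset.card_univ]
  have h4 : ((- ((k * (Fintype.card G - 1)).factorial : MvPolynomial (XX L G Y ⊕ (Fin t ⊕ XX L G Y)) A)) ^
        Fintype.card L * ∏ l, ∑ g, Gam Sum.inl l g ^ k) *
        Qx M (Sum.inr ∘ Sum.inr) Sum.inl (Sum.inr ∘ Sum.inl) =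
      C ((-((k * (Fintype.card G - 1)).factorial : A)) ^ Fintype.card L) *
      (Qx M (Sum.inr ∘ Sum.inr) Sum.inl (Sum.inr ∘ Sum.inl) * ∏ l, ∑ g, Gam Sum.inl l g ^ k) := by
    simp only [map_pow, map_neg, map_natCast]
    ring
  rw [h4, top_rs, layers M T2 T5 T6 T7 T8 ht, mul_assoc]
  ring

/-! ### the columns and the rows -/

section cols
variable {k t : ℕ} [Fintype D] [DecidableEq D]
variable (cc cp : XX L G Y → D) (ex : Fin t → D) (b1 : BB L G k → D)

theorem kappa (T2 : StmTop2) (T3 : StmTop3) (q : MvPolynomial D A) :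
    top ((∏ x : XX L G Y, (X (Sum.inl x) + r (Af M cc x - X (cc x) - X (cp x))) *
        (X (Sum.inl x) + r (Om ex - X (cc x) - X (cp x))) * (X (Sum.inl x) + r (X (cc x) + X (cp x)))) *
      r q : MvPolynomial (XX L G Y ⊕ D) A) = top (Qx M cc cp ex * q) := by
  rw [elim3 T2 T3]
  congr 2
  unfold Qx
  refine Finset.prod_congr rfl fun x _ => ?_
  ring

variable (L G Y) in
/-- all rows -/
abbrev Row (k : ℕ) : Type := (XX L G Y × Fin 3) ⊕ ((L × G) × Fin k)

/-- the coefficients of the first rows of the stations -/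
noncomputable def vec0 (x : XX L G Y) : XX L G Y ⊕ D → A :=
  sg (Sum.inl x) + ((∑ y, M x y • sg (Sum.inr (cc y))) - sg (Sum.inr (cc x)) - sg (Sum.inr (cp x)))

/-- the coefficients of the second rows of the stations -/
noncomputable def vec1 (x : XX L G Y) : XX L G Y ⊕ D → A :=
  sg (Sum.inl x) + ((∑ i, sg (Sum.inr (ex i))) - sg (Sum.inr (cc x)) - sg (Sum.inr (cp x)))

/-- the coefficients of the third rows of the stations -/
noncomputable def vec2 (x : XX L G Y) : XX L G Y ⊕ D → A :=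
  sg (Sum.inl x) + (sg (Sum.inr (cc x)) + sg (Sum.inr (cp x)))

/-- the coefficients of the enforcers -/
noncomputable def vecE {K : Type} [DecidableEq K] (ζ : ℂ) (b : BB L G k → K)
    (c' : XX L G Y → K) (lg : L × G) (i : Fin k) : K → A :=
  (∑ j, sg (b (lg.1, j))) - algebraMap ℂ A (ζ ^ (i : ℕ)) • ∑ y, sg (c' (lg.1, lg.2, y))

theorem lin_vecE {K : Type} [Fintype K] [DecidableEq K] (ζ : ℂ) (b : BB L G k → K)
    (c' : XX L G Y → K) (lg : L × G) (i : Fin k) :
    lin (vecE ζ b c' lg i : K → A) =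
      (∑ j, X (b (lg.1, j))) - algebraMap ℂ (MvPolynomial K A) (ζ ^ (i : ℕ)) * Gam c' lg.1 lg.2 := by
  unfold vecE Gam
  rw [IsScalarTower.algebraMap_apply ℂ A (MvPolynomial K A), algebraMap_eq]
  simp only [map_sub, map_sum, map_smul, lin_sg, smul_eq_C_mul]

theorem lin_vec0 (x : XX L G Y) :
    lin (vec0 M cc cp x) = X (Sum.inl x) + r (Af M cc x - X (cc x) - X (cp x)) := by
  unfold vec0 Af
  simp only [map_add, map_sub, map_sum, map_smul, lin_sg, smul_eq_C_mul, rename_X, map_mul, rename_C]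

theorem lin_vec1 (x : XX L G Y) :
    lin (vec1 cc cp ex x : XX L G Y ⊕ D → A) =
      X (Sum.inl x) + r (Om ex - X (cc x) - X (cp x)) := by
  unfold vec1 Om
  simp only [map_add, map_sub, map_sum, lin_sg, rename_X]

theorem lin_vec2 (x : XX L G Y) :
    lin (vec2 cc cp x : XX L G Y ⊕ D → A) = X (Sum.inl x) + r (X (cc x) + X (cp x)) := by
  unfold vec2
  simp only [map_add, lin_sg, rename_X]

/-- the coefficients of all rows -/
noncomputable def vec (ζ : ℂ) : Row L G Y k → XX L G Y ⊕ D → A :=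
  Sum.elim (fun xj => ![vec0 M cc cp xj.1, vec1 cc cp ex xj.1, vec2 cc cp xj.1] xj.2)
    (fun gi => vecE ζ (Sum.inr ∘ b1) (Sum.inr ∘ cp) gi.1 gi.2)

theorem rows (ζ : ℂ) :
    (∏ i, lin (vec M cc cp ex b1 ζ i) : MvPolynomial (XX L G Y ⊕ D) A) =
    (∏ x : XX L G Y, (X (Sum.inl x) + r (Af M cc x - X (cc x) - X (cp x))) *
        (X (Sum.inl x) + r (Om ex - X (cc x) - X (cp x))) * (X (Sum.inl x) + r (X (cc x) + X (cp x)))) *
      r (En k ζ b1 cp) := by
  rw [Fintype.prod_sum_type]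
  refine congrArg₂ (· * ·) ?_ ?_
  · rw [Fintype.prod_prod_type]
    refine Finset.prod_congr rfl fun x _ => ?_
    rw [Fin.prod_univ_three, ← lin_vec0, ← lin_vec1, ← lin_vec2]
    rfl
  · simp only [vec, Sum.elim_inr, lin_vecE]
    rw [rename_En, En, Fintype.prod_prod_type, Fintype.prod_prod_type]

end cols

/-- the permanent of the array of all rows -/
theorem main_perm (TP : S_TopPi) (T1 : StmTop1) (T2 : StmTop2) (T3 : StmTop3) (T4 : StmTop4)
    (T5 : StmTop5) (T6 : StmTop6) (T7 : StmTop7) (T8 : StmTop8) {k t : ℕ} (hk : 1 ≤ k) (ζ : ℂ)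
    (hζ : IsPrimitiveRoot ζ k) (ht : Fintype.card (PP L k) = t) :
    rperm (vec (D := BB L G k ⊕ (XX L G Y ⊕ (Fin t ⊕ XX L G Y))) M
        (Sum.inr ∘ Sum.inr ∘ Sum.inr) (Sum.inr ∘ Sum.inl) (Sum.inr ∘ Sum.inr ∘ Sum.inl)
        Sum.inl ζ) =
      ((-((k * (Fintype.card G - 1)).factorial : A)) ^ Fintype.card L *
      ((t.factorial : A) * (-2) ^ (Fintype.card (XX L G Y) - t))) * val M k := by
  rw [← T1]
  refine Eq.trans (congrArg top (rows M _ _ _ _ ζ)) ?_
  rw [kappa M _ _ _ T2 T3]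
  exact bundles M TP T2 T4 T5 T6 T7 T8 hk ζ hζ ht

end stations

section aff

variable {ι : Type} [Fintype ι]
variable {L G Y : Type} [Fintype L] [DecidableEq L] [Fintype G] [DecidableEq G] [Nonempty G]
  [Fintype Y] [DecidableEq Y] {D : Type} [Fintype D] [DecidableEq D]

theorem aff_vecE {K : Type} [DecidableEq K] {k : ℕ} (ζ : ℂ) (b : BB L G k → K)
    (c' : XX L G Y → K) (lg : L × G) (i : Fin k) (j : K) :
    IsAff ((vecE ζ b c' lg i : K → MvPolynomial ι ℂ) j) := by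
  unfold vecE
  rw [Pi.sub_apply, Pi.smul_apply, Finset.sum_apply, Finset.sum_apply, smul_eq_mul]
  exact aff_sub (aff_sum _ _ fun x _ => aff_sg _ _) (aff_smul _ (aff_sum _ _ fun x _ => aff_sg _ _))

theorem aff_vec {k t : ℕ} (M : XX L G Y → XX L G Y → MvPolynomial ι ℂ) (hM : ∀ x y, IsAff (M x y))
    (cc cp : XX L G Y → D) (ex : Fin t → D) (b1 : BB L G k → D) (ζ : ℂ) (i : Row L G Y k)
    (j : XX L G Y ⊕ D) : IsAff (vec M cc cp ex b1 ζ i j) := by
  rcases i with ⟨x, l⟩ | ⟨g, i⟩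
  · fin_cases l
    · show IsAff (vec0 M cc cp x j)
      unfold vec0
      rw [Pi.add_apply, Pi.sub_apply, Pi.sub_apply, Finset.sum_apply]
      refine aff_add (aff_sg _ _) (aff_sub (aff_sub (aff_sum _ _ fun y _ => ?_) (aff_sg _ _)) (aff_sg _ _))
      rw [Pi.smul_apply, smul_eq_mul]
      exact aff_mul_sg _ _ (hM x y)
    · show IsAff (vec1 cc cp ex x j)
      unfold vec1
      rw [Pi.add_apply, Pi.sub_apply, Pi.sub_apply, Finset.sum_apply]
      exact aff_add (aff_sg _ _) (aff_sub (aff_sub (aff_sum _ _ fun y _ => aff_sg _ _) (aff_sg _ _)) (aff_sg _ _))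
    · show IsAff (vec2 cc cp x j)
      unfold vec2
      rw [Pi.add_apply, Pi.add_apply]
      exact aff_add (aff_sg _ _) (aff_add (aff_sg _ _) (aff_sg _ _))
  · exact aff_vecE _ _ _ _ _ _

end aff

end Pool.Agent.H33B.Gad

namespace Pool.Agent.H33B

open H1CL H1CL.Gad Gad

theorem t_gad (TP : S_TopPi) : S_Gad := by
  intro ι L G Y _ _ _ _ _ _ _ _ _ k hk A hA n hn
  obtain ⟨t, ht⟩ : ∃ t, Fintype.card (Gad.PP L k) = t := ⟨_, rfl⟩
  have ht' : t = Fintype.card L * k := by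
    rw [← ht]
    simp
  set ζ : ℂ := Complex.exp (2 * Real.pi * Complex.I / k) with hζd
  have hζ : IsPrimitiveRoot ζ k := Complex.isPrimitiveRoot_exp k (by omega)
  have hg : 0 < Fintype.card G := Fintype.card_pos
  obtain ⟨a, ha⟩ : ∃ a, Fintype.card G = a + 1 := ⟨Fintype.card G - 1, by omega⟩
  let K : Type := Gad.XX L G Y ⊕ (Gad.BB L G k ⊕ (Gad.XX L G Y ⊕ (Fin t ⊕ Gad.XX L G Y)))
  let R : Type := Gad.Row L G Y k
  have hR : Fintype.card R = 3 * (Fintype.card L * (Fintype.card G * Fintype.card Y)) +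
      k * (Fintype.card L * Fintype.card G) := by
    simp only [R, Fintype.card_sum, Fintype.card_prod, Fintype.card_fin]
    ring
  have hK : Fintype.card K = Fintype.card R := by
    rw [hR]
    simp only [K, Fintype.card_sum, Fintype.card_prod, Fintype.card_fin, ha,
      Nat.add_sub_cancel, ht']
    ring
  have hRn : Fintype.card R ≤ n := by
    rw [hR]
    exact hn
  have e : Fin n ≃ Fin (n - Fintype.card R) ⊕ R := by
    refine Fintype.equivOfCardEq ?_
    rw [Fintype.card_sum, Fintype.card_fin, Fintype.card_fin]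
    omega
  have f : Fin n ≃ Fin (n - Fintype.card R) ⊕ K := by
    refine Fintype.equivOfCardEq ?_
    rw [Fintype.card_sum, Fintype.card_fin, Fintype.card_fin, hK]
    omega
  let M : R → K → MvPolynomial ι ℂ := Gad.vec A (Sum.inr ∘ Sum.inr ∘ Sum.inr)
        (Sum.inr ∘ Sum.inl) (Sum.inr ∘ Sum.inr ∘ Sum.inl) Sum.inl ζ
  refine ⟨(-((k * (Fintype.card G - 1)).factorial : ℂ)) ^ Fintype.card L *
      ((t.factorial : ℂ) * (-2) ^ (Fintype.card (Gad.XX L G Y) - t)),
    fun i j => padM M (e i) (f j), ?_, ?_, ?_⟩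
  · have h2 : ∀ m : ℕ, (m.factorial : ℂ) ≠ 0 := fun m => by
      exact_mod_cast m.factorial_ne_zero
    exact mul_ne_zero (pow_ne_zero _ (neg_ne_zero.mpr (h2 _)))
      (mul_ne_zero (h2 _) (pow_ne_zero _ (by norm_num)))
  · intro i j
    exact aff_pad M (Gad.aff_vec A hA _ _ _ _ ζ) (e i) (f j)
  · rw [rperm_reindex e f (padM M), rperm_pad top1 top2 top8 M]
    refine (Gad.main_perm A TP top1 top2 top3 top4 top5 top6 top7 top8 hk ζ hζ ht).trans ?_
    unfold Gad.val
    simp only [map_mul, map_neg, map_pow, map_natCast, map_ofNat]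

end Pool.Agent.H33B
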