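import Pool.Agent.H33B.Stm

/-!
# Project ABP: piece KRU (`S_Kru`)
-/

set_option autoImplicit false
set_option linter.all false

open MvPolynomial

namespace Pool.Agent.H33B

/-- the prime ideal generated by the variables in `s` -/
noncomputable def pr {σ : Type} [DecidableEq σ] (s : Finset σ) : Ideal (MvPolynomial σ ℂ) :=
  RingHom.ker (aeval (fun i => if i ∈ s then (0 : MvPolynomial σ ℂ) else X i)).toRingHom

theorem pr_prime {σ : Type} [DecidableEq σ] (s : Finset σ) : (pr s).IsPrime :=
  RingHom.ker_isPrime _

theorem mem_pr {σ : Type} [DecidableEq σ] (s : Finset σ) (P : MvPolynomial σ ℂ) :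
    P ∈ pr s ↔ aeval (fun i => if i ∈ s then (0 : MvPolynomial σ ℂ) else X i) P = 0 := Iff.rfl

theorem pr_lt {σ : Type} [DecidableEq σ] (s : Finset σ) (i : σ) (hi : i ∉ s) :
    pr s < pr (insert i s) := by
  refine lt_of_le_of_ne ?_ ?_
  · intro P hP
    rw [mem_pr] at hP ⊢
    have h : (aeval (fun j => if j ∈ insert i s then (0 : MvPolynomial σ ℂ) else X j)) =
        (aeval (fun j => if j ∈ insert i s then (0 : MvPolynomial σ ℂ) else X j)).comp
          (aeval (fun j => if j ∈ s then (0 : MvPolynomial σ ℂ) else X j)) := by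
      refine MvPolynomial.algHom_ext fun j => ?_
      rw [AlgHom.comp_apply, aeval_X, aeval_X]
      by_cases hj : j ∈ s
      · rw [if_pos (Finset.mem_insert_of_mem hj), if_pos hj, map_zero]
      · rw [if_neg hj, aeval_X]
    rw [h, AlgHom.comp_apply, hP, map_zero]
  · intro h
    have h1 : (X i : MvPolynomial σ ℂ) ∈ pr (insert i s) := by
      rw [mem_pr, aeval_X, if_pos (Finset.mem_insert_self i s)]
    rw [← h, mem_pr, aeval_X, if_neg hi] at h1
    exact MvPolynomial.X_ne_zero i h1

theorem card_le_height {σ : Type} [DecidableEq σ] (s : Finset σ) :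
    (s.card : ℕ∞) ≤ (pr s).height := by
  induction s using Finset.induction_on with
  | empty => simp
  | insert i s hi ih =>
    haveI := pr_prime s
    haveI := pr_prime (insert i s)
    have h := Ideal.height_add_one_le_of_lt_of_isPrime (pr_lt s i hi)
    rw [Finset.card_insert_of_notMem hi]
    refine le_trans ?_ h
    push_cast
    gcongr

theorem t_Kru : S_Kru := by
  intro σ _ a g hg hfin
  classical
  have hm : ∀ P : MvPolynomial σ ℂ, P ∈ pr Finset.univ ↔ constantCoeff P = 0 := by
    intro P
    rw [mem_pr]
    have : (aeval (fun i => if i ∈ (Finset.univ : Finset σ) then (0 : MvPolynomial σ ℂ) else X i)) P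
        = C (constantCoeff P) := by
      induction P using MvPolynomial.induction_on with
      | C a => simp
      | add p q hp hq => rw [map_add, map_add, hp, hq, map_add]
      | mul_X p i hp => simp
    rw [this]
    constructor
    · intro h; exact MvPolynomial.C_eq_zero.1 h
    · intro h; rw [h, map_zero]
  haveI hpr := pr_prime (Finset.univ : Finset σ)
  have hI : Ideal.span (Set.range g) ≤ pr Finset.univ := by
    rw [Ideal.span_le]
    rintro _ ⟨j, rfl⟩
    exact (hm _).2 (hg j)
  obtain ⟨P, hP, hPm⟩ := Ideal.exists_minimalPrimes_le hI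
  haveI : P.IsPrime := hP.1.1
  have hIP : Ideal.span (Set.range g) ≤ P := hP.1.2
  have hfinP : Module.Finite ℂ (MvPolynomial σ ℂ ⧸ P) :=
    Module.Finite.of_surjective (Ideal.Quotient.factorₐ ℂ hIP).toLinearMap
      (Ideal.Quotient.factor_surjective hIP)
  haveI : IsArtinianRing (MvPolynomial σ ℂ ⧸ P) := IsArtinianRing.of_finite ℂ _
  have hmax : P.IsMaximal := Ideal.Quotient.maximal_of_isField P
    (IsArtinianRing.isField_of_isDomain _)
  have hPeq : P = pr Finset.univ := hmax.eq_of_le hpr.ne_top hPm
  have h1 : P.height ≤ (Set.range g).ncard :=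
    Ideal.height_le_card_of_mem_minimalPrimes_span (Set.finite_range g) hP
  have h2 := card_le_height (Finset.univ : Finset σ)
  rw [← hPeq] at h2
  have h3 : (Set.range g).ncard ≤ a := by
    have := Set.ncard_image_le (f := g) (s := Set.univ) Set.finite_univ
    rw [Set.image_univ, Set.ncard_univ, Nat.card_eq_fintype_card, Fintype.card_fin] at this
    exact this
  have h4 : ((Finset.univ : Finset σ).card : ℕ∞) ≤ ((Set.range g).ncard : ℕ∞) := h2.trans h1
  have h5 : (Finset.univ : Finset σ).card ≤ (Set.range g).ncard := by exact_mod_cast h4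
  exact h5.trans h3

end Pool.Agent.H33B
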