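import Pool.Agent.H33B.Stm

/-!
# Piece NUM: numerics
-/

set_option autoImplicit false

namespace Pool.Agent.H33B

theorem t_Num : S_Num := by
  intro ε hε
  obtain ⟨e, he0, he1, he2⟩ : ∃ e : ℝ, 0 < e ∧ e ≤ ε ∧ e ≤ 1 :=
    ⟨min ε 1, lt_min hε one_pos, min_le_left _ _, min_le_right _ _⟩
  obtain ⟨q, hq⟩ := exists_nat_ge (3 / e)
  have hq3 : 3 ≤ e * q := by
    rw [div_le_iff₀ he0] at hq
    linarith
  have hq1 : 1 ≤ q := by
    rcases Nat.eq_zero_or_pos q with h | h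
    · rw [h] at hq3
      norm_num at hq3
    · exact h
  obtain ⟨A, hA⟩ : ∃ A : ℕ, A = (q + 1) * (3 * 2 ^ q + 1) := ⟨_, rfl⟩
  have hA1 : 1 ≤ A := by
    rw [hA]
    exact Nat.mul_pos (Nat.succ_pos q) (Nat.succ_pos _)
  obtain ⟨A', hA'⟩ : ∃ A' : ℕ, A' = A * 2 ^ (q + 1) := ⟨_, rfl⟩
  have hA'1 : 1 ≤ A' := by
    rw [hA']
    exact Nat.mul_pos hA1 (by positivity)
  obtain ⟨B, hB⟩ : ∃ B : ℕ, B = 12 * A' ^ 3 + 2 := ⟨_, rfl⟩
  refine ⟨A * B ^ (q + 1), fun n hn => ?_⟩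
  have key : ∀ m : ℕ, m ≤ A * m ^ (q + 1) := by
    intro m
    rcases Nat.eq_zero_or_pos m with h | h
    · rw [h]; exact Nat.zero_le _
    · calc m = 1 * m ^ 1 := by ring
        _ ≤ A * m ^ (q + 1) := Nat.mul_le_mul hA1 (Nat.pow_le_pow_right h (by omega))
  obtain ⟨h, hh⟩ : ∃ h : ℕ, h = Nat.findGreatest (fun h => A * h ^ (q + 1) ≤ n) n := ⟨_, rfl⟩
  have h1 : B ≤ h := by
    rw [hh]
    exact Nat.le_findGreatest ((key B).trans hn) hn
  have h2 : A * h ^ (q + 1) ≤ n := by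
    rw [hh]
    exact Nat.findGreatest_spec (P := fun h => A * h ^ (q + 1) ≤ n) ((key B).trans hn) hn
  have h3 : n < A * (h + 1) ^ (q + 1) := by
    by_contra hc
    push Not at hc
    have h4 : h + 1 ≤ Nat.findGreatest (fun h => A * h ^ (q + 1) ≤ n) n :=
      Nat.le_findGreatest ((key (h + 1)).trans hc) hc
    rw [← hh] at h4
    omega
  have hB2 : 2 ≤ B := by omega
  refine ⟨q, h, hq1, hB2.trans h1, ?_, ?_⟩
  · rw [← hA]
    exact h2
  have hn1 : 1 ≤ n := by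
    have := (key B).trans hn
    omega
  have hnR : (1 : ℝ) ≤ n := by exact_mod_cast hn1
  have hhR : (1 : ℝ) ≤ h := by
    have : 1 ≤ h := by omega
    exact_mod_cast this
  have h5 : (n : ℝ) ≤ A' * (h : ℝ) ^ (q + 1) := by
    have h6 : n ≤ A' * h ^ (q + 1) := by
      refine h3.le.trans ?_
      rw [hA', mul_assoc, ← mul_pow]
      exact Nat.mul_le_mul_left A (Nat.pow_le_pow_left (by omega) _)
    exact_mod_cast h6
  have hA'R : (1 : ℝ) ≤ A' := by exact_mod_cast hA'1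
  have h7 : (n : ℝ) ^ (3 - ε) ≤ (A' : ℝ) ^ 3 * (h : ℝ) ^ (3 * q) := by
    calc (n : ℝ) ^ (3 - ε) ≤ (n : ℝ) ^ (3 - e) := Real.rpow_le_rpow_of_exponent_le hnR (by linarith)
      _ ≤ (A' * (h : ℝ) ^ (q + 1)) ^ (3 - e) := Real.rpow_le_rpow (by positivity) h5 (by linarith)
      _ = (A' : ℝ) ^ (3 - e) * ((h : ℝ) ^ (q + 1)) ^ (3 - e) := Real.mul_rpow (by positivity) (by positivity)
      _ ≤ (A' : ℝ) ^ 3 * (h : ℝ) ^ (3 * q) := by
          refine mul_le_mul ?_ ?_ (by positivity) (by positivity)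
          · calc (A' : ℝ) ^ (3 - e) ≤ (A' : ℝ) ^ (3 : ℝ) := Real.rpow_le_rpow_of_exponent_le hA'R (by linarith)
              _ = (A' : ℝ) ^ 3 := by
                  rw [← Real.rpow_natCast]
                  norm_num
          · rw [← Real.rpow_natCast, ← Real.rpow_mul (by positivity), ← Real.rpow_natCast]
            refine Real.rpow_le_rpow_of_exponent_le hhR ?_
            push_cast
            nlinarith
  refine h7.trans ?_
  have h8 : 12 * (A' : ℝ) ^ 3 ≤ h := by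
    have h9 : 12 * A' ^ 3 ≤ h := by omega
    exact_mod_cast h9
  rw [pow_succ (h : ℝ) (3 * q), le_div_iff₀ (by norm_num : (0 : ℝ) < 12)]
  have h10 : (0 : ℝ) ≤ (h : ℝ) ^ (3 * q) := by positivity
  nlinarith [mul_le_mul_of_nonneg_left h8 h10]

end Pool.Agent.H33B
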