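import Pool.Agent.H33B.Stm

/-!
# Piece PERT: small deformations
-/

set_option autoImplicit false

open MvPolynomial Filter Topology

namespace Pool.Agent.H33B

namespace Pert

variable {σ : Type} [Fintype σ]

lemma sum_eq {d : ℕ} {P : MvPolynomial σ ℂ} (hP : P.IsHomogeneous d) {μ : σ →₀ ℕ} (hμ : coeff μ P ≠ 0) :
    ∑ i, μ i = d := by
  have h := hP hμ
  rw [Finsupp.weight_apply, Finsupp.sum_fintype _ _ (by simp)] at h
  simpa using h

lemma eval_smul' {d : ℕ} {P : MvPolynomial σ ℂ} (hP : P.IsHomogeneous d) (c : ℂ) (x : σ → ℂ) :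
    eval (c • x) P = c ^ d * eval x P := by
  rw [eval_eq', eval_eq', Finset.mul_sum]
  refine Finset.sum_congr rfl fun μ hμ => ?_
  have h := sum_eq hP (mem_support_iff.1 hμ)
  simp only [Pi.smul_apply, smul_eq_mul, mul_pow, Finset.prod_mul_distrib, Finset.prod_pow_eq_pow_sum, h]
  ring

/-- A finite set of monomials which contains those of degree `d`. -/
noncomputable def mons (σ : Type) [Fintype σ] (d : ℕ) : Finset (σ →₀ ℕ) :=
  open Classical in Finset.univ.finsuppAntidiag d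

lemma mem_mons {d : ℕ} {μ : σ →₀ ℕ} (h : ∑ i, μ i = d) : μ ∈ mons σ d := by
  classical
  unfold mons
  convert Finset.mem_finsuppAntidiag.2 ⟨h, Finset.subset_univ _⟩

lemma pd_eq {d : ℕ} {P : MvPolynomial σ ℂ} (hP : P.IsHomogeneous d) (i : σ) (x : σ → ℂ) :
    eval x (pderiv i P) = ∑ μ ∈ mons σ d, coeff μ P * eval x (pderiv i (monomial μ 1)) := by
  have h1 : ∑ μ ∈ mons σ d, monomial μ (coeff μ P) = P := by
    rw [← Finset.sum_subset (s₁ := P.support), support_sum_monomial_coeff]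
    · intro μ hμ
      exact mem_mons (sum_eq hP (mem_support_iff.1 hμ))
    · intro μ _ hμ
      rw [notMem_support_iff.1 hμ, map_zero]
  conv_lhs => rw [← h1]
  rw [map_sum, map_sum]
  refine Finset.sum_congr rfl fun μ _ => ?_
  have h2 : (monomial μ (coeff μ P) : MvPolynomial σ ℂ) = C (coeff μ P) * monomial μ 1 := by
    rw [C_mul_monomial, mul_one]
  rw [h2, pderiv_C_mul, map_mul, eval_C]

end Pert

open Pert in
theorem t_Pert : S_Pert := by
  intro σ _ d F hF hc b ℓ h0
  by_contra hcon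
  push Not at hcon
  -- the closed set of the zeros
  let K : Set (σ → ℂ) := Metric.sphere 0 1
  have hK : IsCompact K := isCompact_sphere 0 1
  have : CompactSpace K := isCompact_iff_compactSpace.1 hK
  let Z : Set (ℂ × K) := {y | (∀ i, eval (y.2 : σ → ℂ) (pderiv i (F y.1)) = 0) ∧
    ∀ j, ∑ s, ℓ j s * (y.2 : σ → ℂ) s = 0}
  have hZ : IsClosed Z := by
    have h1 : Z = (⋂ i, {y : ℂ × K | eval (y.2 : σ → ℂ) (pderiv i (F y.1)) = 0}) ∩
        ⋂ j, {y : ℂ × K | ∑ s, ℓ j s * (y.2 : σ → ℂ) s = 0} := by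
      ext y
      simp only [Z, Set.mem_inter_iff, Set.mem_iInter, Set.mem_ofPred_eq]
    rw [h1]
    refine IsClosed.inter (isClosed_iInter fun i => ?_) (isClosed_iInter fun j => ?_)
    · refine isClosed_eq ?_ continuous_const
      have h2 : (fun y : ℂ × K => eval (y.2 : σ → ℂ) (pderiv i (F y.1))) =
          fun y => ∑ μ ∈ mons σ (d + 1), coeff μ (F y.1) * eval (y.2 : σ → ℂ) (pderiv i (monomial μ 1)) := by
        funext y
        exact pd_eq (hF y.1) i _
      rw [h2]
      refine continuous_finsetSum _ fun μ _ => ((hc μ).comp continuous_fst).mul ?_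
      exact (MvPolynomial.continuous_eval _).comp (continuous_subtype_val.comp continuous_snd)
    · refine isClosed_eq ?_ continuous_const
      refine continuous_finsetSum _ fun s _ => continuous_const.mul ?_
      exact (continuous_apply s).comp (continuous_subtype_val.comp continuous_snd)
  have hcl : IsClosed (Prod.fst '' Z) := isClosedMap_fst_of_compactSpace _ hZ
  have hsub : ({0}ᶜ : Set ℂ) ⊆ Prod.fst '' Z := by
    intro θ hθ
    obtain ⟨x, hx1, hx2, hx3⟩ := hcon θ hθ
    have hn : ‖x‖ ≠ 0 := norm_ne_zero_iff.2 hx3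
    obtain ⟨c, hcdef⟩ : ∃ c : ℂ, c = ((‖x‖⁻¹ : ℝ) : ℂ) := ⟨_, rfl⟩
    have hy : c • x ∈ K := by
      rw [mem_sphere_zero_iff_norm, norm_smul, hcdef, Complex.norm_real, norm_inv, norm_norm]
      exact inv_mul_cancel₀ hn
    refine ⟨(θ, ⟨c • x, hy⟩), ⟨fun i => ?_, fun j => ?_⟩, rfl⟩
    · have h3 : (pderiv i (F θ)).IsHomogeneous d := by
        have h4 := (hF θ).pderiv (i := i)
        rwa [Nat.add_sub_cancel] at h4
      change eval (c • x) (pderiv i (F θ)) = 0
      rw [eval_smul' h3, hx1 i, mul_zero]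
    · change ∑ s, ℓ j s * (c • x) s = 0
      have h5 : ∑ s, ℓ j s * (c • x) s = c * ∑ s, ℓ j s * x s := by
        rw [Finset.mul_sum]
        refine Finset.sum_congr rfl fun s _ => ?_
        rw [Pi.smul_apply, smul_eq_mul]
        ring
      rw [h5, hx2 j, mul_zero]
  have hall : Prod.fst '' Z = Set.univ := by
    have h6 : closure ({0}ᶜ : Set ℂ) = Set.univ := (dense_compl_singleton (0 : ℂ)).closure_eq
    exact Set.eq_univ_of_univ_subset (h6 ▸ closure_minimal hsub hcl)
  obtain ⟨⟨θ, x, hx⟩, ⟨h7, h8⟩, h9⟩ := (hall ▸ Set.mem_univ (0 : ℂ) : (0 : ℂ) ∈ Prod.fst '' Z)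
  obtain rfl : θ = 0 := h9
  have h10 := h0 x h7 h8
  rw [h10] at hx
  have h11 : ‖(0 : σ → ℂ)‖ = 1 := mem_sphere_zero_iff_norm.1 hx
  rw [norm_zero] at h11
  exact zero_ne_one h11

end Pool.Agent.H33B
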