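import Pool.Agent.H33B.Stm
import Pool.Agent.Helper1x.CL.Crit

/-!
# Piece SING of project ABP
-/

set_option autoImplicit false
set_option linter.all false

namespace Pool.Agent.H33B

namespace SING

open Finset

variable {T : Type} [Fintype T] [DecidableEq T]

/-- the product of the `1 + y_t X` -/
noncomputable def P (y : T → ℂ) (A : Finset T) : Polynomial ℂ :=
  ∏ w ∈ A, (1 + Polynomial.C (y w) * Polynomial.X)

theorem P_erase (y : T → ℂ) {A : Finset T} {t : T} (ht : t ∈ A) :
    P y A = (1 + Polynomial.C (y t) * Polynomial.X) * P y (A.erase t) := by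
  unfold P
  exact (mul_prod_erase A _ ht).symm

theorem sum_erase (y : T → ℂ) (A : Finset T) :
    ∑ t ∈ A, P y (A.erase t) =
      (A.card : Polynomial ℂ) * P y A - Polynomial.X * Polynomial.derivative (P y A) := by
  have h1 : Polynomial.derivative (P y A) =
      ∑ t ∈ A, P y (A.erase t) * Polynomial.C (y t) := by
    unfold P
    rw [Polynomial.derivative_prod_finset]
    refine sum_congr rfl fun t _ => ?_
    congr 1
    simp
  have h2 : Polynomial.X * Polynomial.derivative (P y A) =
      ∑ t ∈ A, (P y A - P y (A.erase t)) := by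
    rw [h1, mul_sum]
    refine sum_congr rfl fun t ht => ?_
    rw [P_erase y ht]
    ring
  rw [h2, sum_sub_distrib, sum_const, nsmul_eq_mul]
  ring

theorem sum_coeff (y : T → ℂ) (A : Finset T) (m : ℕ) :
    ∑ t ∈ A, (P y (A.erase t)).coeff (m + 1) =
      ((A.card : ℂ) - (m + 1)) * (P y A).coeff (m + 1) := by
  rw [← Polynomial.finsetSum_coeff, sum_erase, Polynomial.coeff_sub, Polynomial.coeff_X_mul,
    Polynomial.coeff_derivative, ← map_natCast (Polynomial.C : ℂ →+* Polynomial ℂ),
    Polynomial.coeff_C_mul]
  ring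

theorem coeff_zero (y : T → ℂ) (A : Finset T) : (P y A).coeff 0 = 1 := by
  unfold P
  rw [Polynomial.coeff_zero_eq_eval_zero, Polynomial.eval_prod]
  simp

theorem coeff_erase (y : T → ℂ) {A : Finset T} {t : T} (ht : t ∈ A) (m : ℕ) :
    (P y A).coeff (m + 1) = (P y (A.erase t)).coeff (m + 1) + y t * (P y (A.erase t)).coeff m := by
  rw [P_erase y ht, add_mul, one_mul, Polynomial.coeff_add, mul_assoc, Polynomial.coeff_C_mul,
    Polynomial.coeff_X_mul]

theorem coeff_top (y : T → ℂ) (A : Finset T) : (P y A).coeff A.card = ∏ t ∈ A, y t := by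
  unfold P
  have h1 := Polynomial.coeff_prod_of_natDegree_le A
    (fun w => (1 + Polynomial.C (y w) * Polynomial.X : Polynomial ℂ)) 1 (by
      intro w _
      compute_degree)
  rw [mul_one] at h1
  rw [h1]
  refine prod_congr rfl fun w _ => ?_
  simp [Polynomial.coeff_one]

/-- the core -/
theorem core (k : ℕ) (hk : 2 ≤ k) (hkT : k ≤ Fintype.card T) (ν : T → ℂ)
    (hν : Function.Injective ν) (y : T → ℂ)
    (hy : ∀ t, (P y (univ.erase t)).coeff (k - 1) = 0)
    (hv : ∀ j < k - 2, ∑ t, ν t ^ j * y t = 0) : y = 0 := by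
  set S : Finset T := univ.filter fun t => y t ≠ 0 with hS
  have hmem : ∀ t, t ∈ S ↔ y t ≠ 0 := fun t => by simp [hS]
  have hP : ∀ t, P y (univ.erase t) = P y (S.erase t) := by
    intro t
    unfold P
    symm
    refine prod_subset (erase_subset_erase _ (subset_univ _)) fun w hw hw' => ?_
    have h1 : y w = 0 := by
      by_contra h2
      exact hw' (mem_erase.2 ⟨(mem_erase.1 hw).1, (hmem w).2 h2⟩)
    rw [h1]
    simp
  by_cases hr : S.card ≤ k - 2
  · -- the Vandermonde system
    have e : S ≃ Fin S.card := S.equivFin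
    have h1 : (fun i : Fin S.card => y (e.symm i)) = 0 := by
      refine Matrix.eq_zero_of_forall_pow_sum_mul_pow_eq_zero
        (f := fun i : Fin S.card => ν (e.symm i)) ?_ ?_
      · intro i j hij
        have := Subtype.ext (hν hij)
        exact e.symm.injective this
      · intro j
        have h2 := hv j (lt_of_lt_of_le j.2 hr)
        have h3 : ∑ t, ν t ^ (j : ℕ) * y t = ∑ t ∈ S, ν t ^ (j : ℕ) * y t := by
          symm
          refine sum_subset (subset_univ _) fun t _ ht => ?_
          have : y t = 0 := by
            by_contra h4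
            exact ht ((hmem t).2 h4)
          rw [this, mul_zero]
        rw [h3, ← sum_coe_sort, ← e.symm.sum_comp] at h2
        rw [← h2]
        exact sum_congr rfl fun i _ => mul_comm _ _
    funext t
    by_contra h2
    have h3 := congrFun h1 (e ⟨t, (hmem t).2 h2⟩)
    simp only [Equiv.symm_apply_apply, Pi.zero_apply] at h3
    exact h2 h3
  · exfalso
    push Not at hr
    by_cases hr2 : S.card = k - 1
    · obtain ⟨t, ht⟩ : ∃ t, t ∉ S := by
        by_contra h1
        push Not at h1
        have : S = univ := eq_univ_iff_forall.2 h1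
        rw [this, card_univ] at hr2
        omega
      have h1 := hy t
      rw [hP, erase_eq_of_notMem ht, ← hr2, coeff_top] at h1
      rw [prod_eq_zero_iff] at h1
      obtain ⟨s, hs, hs0⟩ := h1
      exact (hmem s).1 hs hs0
    · have hr3 : k ≤ S.card := by omega
      have key : ∀ j, j ≤ k - 1 → ∀ t ∈ S, (P y (S.erase t)).coeff (k - 1 - j) = 0 := by
        intro j
        induction j with
        | zero =>
          intro _ t _
          rw [Nat.sub_zero, ← hP]
          exact hy t
        | succ j ih =>
          intro hj t ht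
          obtain ⟨m, hm⟩ : ∃ m, k - 1 - j = m + 1 := ⟨k - 1 - j - 1, by omega⟩
          have hm' : k - 1 - (j + 1) = m := by omega
          have h1 := ih (by omega)
          rw [hm] at h1
          rw [hm']
          have h2 : (P y S).coeff (m + 1) = 0 := by
            have h3 := sum_coeff y S m
            rw [sum_eq_zero h1] at h3
            have h4 : ((S.card : ℂ) - (m + 1)) ≠ 0 := by
              rw [sub_ne_zero]
              have : S.card ≠ m + 1 := by omega
              exact_mod_cast this
            exact (mul_eq_zero.1 h3.symm).resolve_left h4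
          have h3 := coeff_erase y ht m
          rw [h2, h1 t ht, zero_add] at h3
          exact (mul_eq_zero.1 h3.symm).resolve_left ((hmem t).1 ht)
      obtain ⟨t, ht⟩ : S.Nonempty := card_pos.1 (by omega)
      have h1 := key (k - 1) le_rfl t ht
      rw [Nat.sub_self, coeff_zero] at h1
      exact one_ne_zero h1

end SING

open SING in
/-- **Piece SING** -/
theorem t_Sing : S_Sing := by
  classical
  intro Γ T _ _ k hk hkT ν hν x hgrad hvan
  obtain ⟨q, rfl⟩ : ∃ q, k = q + 1 := ⟨k - 1, by omega⟩
  have h1 : ∀ g t, (P (fun w => x (g, w)) (Finset.univ.erase t)).coeff q = 0 := by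
    intro g t
    have h2 := hgrad (g, t)
    have h3 : (∑ g : Γ, ∑ τ : Fin (q + 1) ↪ T, ∏ j, MvPolynomial.X (g, τ j) :
        MvPolynomial (Γ × T) ℂ) = H1CL.Crit.F q Γ T := by
      unfold H1CL.Crit.F
      refine Finset.sum_congr rfl fun g _ => ?_
      refine Finset.sum_congr ?_ fun τ _ => rfl
      ext τ
      simp
    rw [h3, H1CL.Crit.pderiv_F, map_mul, map_natCast, H1CL.Crit.eval_E] at h2
    exact (mul_eq_zero.1 h2).resolve_left (Nat.cast_ne_zero.2 (Nat.factorial_ne_zero _))
  funext p
  obtain ⟨g, t⟩ := p
  exact congrFun (core (q + 1) hk hkT ν hν (fun w => x (g, w)) (fun t => h1 g t)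
    (fun j hj => hvan g j hj)) t

end Pool.Agent.H33B
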