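import Pool.Agent.H33B.Stm

/-!
# Project ABP: affine substitutions (piece SUB)
-/

set_option autoImplicit false
set_option linter.all false

open MvPolynomial

namespace Pool.Agent.H33B

theorem deg_aeval {σ τ : Type} (p : MvPolynomial σ ℂ) (lam : σ → MvPolynomial τ ℂ)
    (hlam : ∀ s, (lam s).totalDegree ≤ 1) (d : ℕ) (hp : p.totalDegree ≤ d) :
    (aeval lam p).totalDegree ≤ d := by
  classical
  rw [aeval_def, eval₂_eq]
  refine totalDegree_finsetSum_le fun α hα => ?_
  refine (totalDegree_mul _ _).trans ?_
  have h1 : ((algebraMap ℂ (MvPolynomial τ ℂ)) (coeff α p)).totalDegree = 0 :=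
    totalDegree_C _
  rw [h1, zero_add]
  refine (totalDegree_finset_prod _ _).trans ?_
  have h2 : ∑ s ∈ α.support, (lam s ^ α s).totalDegree ≤ ∑ s ∈ α.support, α s := by
    refine Finset.sum_le_sum fun s _ => ?_
    refine (totalDegree_pow _ _).trans ?_
    exact (Nat.mul_le_mul_left _ (hlam s)).trans (by rw [mul_one])
  refine h2.trans ?_
  exact (le_totalDegree hα).trans hp

theorem t_Sub : S_Sub := by
  intro σ τ V _ P lam hlam
  refine ⟨{ layer := P.layer
            src := P.src
            lab := fun u v => aeval lam (P.lab u v)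
            val := fun v => aeval lam (P.val v)
            lab_deg := fun u v => deg_aeval _ lam hlam 1 (P.lab_deg u v)
            layer_src := P.layer_src
            eq_src := P.eq_src
            val_src := by rw [P.val_src, map_one]
            val_eq := ?_ }, fun v => rfl⟩
  intro v hv
  rw [P.val_eq v hv, map_sum]
  refine Finset.sum_congr rfl fun u _ => ?_
  split_ifs
  · rw [map_mul]
  · rw [map_zero]

end Pool.Agent.H33B
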