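import Pool.Agent.H33B.Stm
import Pool.Agent.Helper1x.CL.TopB

/-!
# Piece TOPPI of project ABP
-/

set_option autoImplicit false

open MvPolynomial

namespace Pool.Agent.H33B

theorem topPi_monomial {L X S : Type} [CommRing S] [DecidableEq L] (s : Finset L) (a : L → X →₀ ℕ)
    (c : L → S) : ∏ l ∈ s, monomial (a l) (c l) = monomial (∑ l ∈ s, a l) (∏ l ∈ s, c l) := by
  induction s using Finset.induction_on with
  | empty => simp
  | insert i s hi ih =>
    rw [Finset.prod_insert hi, Finset.sum_insert hi, Finset.prod_insert hi, ih, monomial_mul]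

theorem topPi_apply {L K : Type} [Fintype L] [DecidableEq L] (f : L → (K →₀ ℕ)) (l : L) (b : K) :
    (∑ l', (f l').mapDomain (fun b : K => (l', b))) (l, b) = f l b := by
  classical
  rw [Finsupp.finset_sum_apply, Finset.sum_eq_single l]
  · exact Finsupp.mapDomain_apply (fun b b' h => (Prod.mk.inj h).2) _ _
  · intro l' _ hl
    refine Finsupp.mapDomain_notin_range _ _ ?_
    rintro ⟨b', hb⟩
    exact hl (Prod.mk.inj hb).1
  · intro h
    exact absurd (Finset.mem_univ _) h

theorem t_TopPi : S_TopPi := by
  intro L K S _ _ _ q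
  classical
  simp only [H1CL.tb_top_apply]
  have h1 : ∀ l, rename (fun b : K => (l, b)) (q l) = ∑ m ∈ (q l).support,
      monomial (m.mapDomain (fun b : K => (l, b))) (coeff m (q l)) := by
    intro l
    conv_lhs => rw [(q l).as_sum]
    rw [map_sum]
    exact Finset.sum_congr rfl fun m _ => rename_monomial _ _ _
  rw [Finset.prod_congr rfl (fun l _ => h1 l), Finset.prod_univ_sum, coeff_sum,
    Finset.sum_eq_single (fun _ => Finsupp.equivFunOnFinite.symm (1 : K → ℕ))]
  · rw [topPi_monomial, coeff_monomial, if_pos]
    ext ⟨l, b⟩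
    rw [topPi_apply]
    simp
  · intro f _ hf
    rw [topPi_monomial, coeff_monomial, if_neg]
    intro h
    apply hf
    funext l
    ext b
    have h2 := DFunLike.congr_fun h (l, b)
    rw [topPi_apply] at h2
    rw [h2]
    simp
  · intro h
    rw [topPi_monomial, coeff_monomial]
    split_ifs
    · rw [Fintype.mem_piFinset, not_forall] at h
      obtain ⟨l, hl⟩ := h
      refine Finset.prod_eq_zero (Finset.mem_univ l) ?_
      rwa [mem_support_iff, not_not] at hl
    · rfl

end Pool.Agent.H33B
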