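import Pool.Agent.H33B.Val
import Pool.Agent.H33B.Gad
import Pool.Agent.H33B.Chain
import Pool.Agent.H33B.Cut
import Pool.Agent.H33B.Kru
import Pool.Agent.H33B.Sub
import Pool.Agent.H33B.TopPi
import Pool.Agent.H33B.Fin
import Pool.Agent.H33B.Alg
import Pool.Agent.H33B.Pert
import Pool.Agent.H33B.Sing
import Pool.Agent.H33B.Num

/-!
# Assembly of project ABP (helper33)
-/

set_option autoImplicit false
set_option linter.all false

open MvPolynomial

namespace Pool.Agent.H33B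

namespace Main

variable {q h k : ℕ}

theorem mo_hom (z : Fin q) (a : Fin h) (d τ τ' : Fin q → Fin h) :
    (Mo z a d τ τ').IsHomogeneous 1 := by
  unfold Mo
  split_ifs
  · exact isHomogeneous_X _ _
  · exact isHomogeneous_zero _ _ _

theorem fdef_hom (z : Fin q) (θ : ℂ) : (Fdef q h k z θ).IsHomogeneous k := by
  unfold Fdef
  refine IsHomogeneous.sum _ _ _ fun g _ => IsHomogeneous.sum _ _ _ fun τ _ =>
    IsHomogeneous.sum _ _ _ fun ρ _ => ?_
  have h1 := IsHomogeneous.prod (Finset.univ : Finset (Fin k))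
    (fun i => Mo z g.1 g.2 (τ i) (τ (ρ i))) (fun _ => 1) (fun i _ => mo_hom z _ _ _ _)
  simp only [Finset.sum_const, Finset.card_univ, Fintype.card_fin, smul_eq_mul, mul_one] at h1
  have h2 := (isHomogeneous_C (Var q h) (θ ^ Ex (fun i => τ i) ρ)).mul h1
  rwa [zero_add] at h2

theorem fdef_cont (z : Fin q) (μ : Var q h →₀ ℕ) : Continuous fun θ => coeff μ (Fdef q h k z θ) := by
  unfold Fdef
  simp only [coeff_sum, coeff_C_mul]
  fun_prop

theorem mo_self (z : Fin q) (a : Fin h) (d τ : Fin q → Fin h) : Mo z a d τ τ = X ((a, d), τ) := by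
  have hd : ∃ d' : Fin q → Fin h, (∀ c, (τ c : ℕ) + d c = τ c + d' c) ∧ d' z = d z :=
    ⟨d, fun c => rfl, rfl⟩
  unfold Mo
  rw [dif_pos hd]
  have h1 : hd.choose = d := by
    funext c
    apply Fin.ext
    have := hd.choose_spec.1 c
    omega
  rw [h1]

theorem ex_zero (τ : Fin k ↪ (Fin q → Fin h)) (ρ : Equiv.Perm (Fin k)) :
    Ex (fun i => τ i) ρ = 0 ↔ ρ = 1 := by
  unfold Ex
  rw [Finset.sum_eq_zero_iff]
  constructor
  · intro hh
    ext1 i
    apply τ.injective
    funext c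
    have h1 := hh i (Finset.mem_univ i)
    rw [Finset.sum_eq_zero_iff] at h1
    have h2 := h1 c (Finset.mem_univ c)
    have h3 := pow_eq_zero_iff (two_ne_zero) |>.1 h2
    beta_reduce at h3
    apply Fin.ext
    show ((τ (ρ i) c : Fin h) : ℕ) = (τ i c : ℕ)
    omega
  · rintro rfl i _
    refine Finset.sum_eq_zero fun c _ => ?_
    simp

theorem fdef_zero (z : Fin q) : Fdef q h k z 0 =
    ∑ g : Grp q h, ∑ τ : Fin k ↪ (Fin q → Fin h), ∏ j, X (g, τ j) := by
  unfold Fdef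
  refine Finset.sum_congr rfl fun g _ => Finset.sum_congr rfl fun τ _ => ?_
  rw [Finset.sum_eq_single 1]
  · have h1 : Ex (fun i => τ i) (1 : Equiv.Perm (Fin k)) = 0 := (ex_zero τ 1).2 rfl
    rw [h1, pow_zero, C_1, one_mul]
    refine Finset.prod_congr rfl fun i _ => ?_
    exact mo_self z g.1 g.2 (τ i)
  · intro ρ _ hρ
    have h1 : Ex (fun i => τ i) ρ ≠ 0 := fun h0 => hρ ((ex_zero τ ρ).1 h0)
    rw [zero_pow h1, C_0, zero_mul]
  · intro hh
    exact absurd (Finset.mem_univ _) hh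

/-- An affine polynomial has degree at most one. -/
theorem aff_deg {ι : Type} [Fintype ι] {f : MvPolynomial ι ℂ} (hf : H1CL.IsAff f) :
    f.totalDegree ≤ 1 := by
  obtain ⟨a, L, rfl⟩ := hf
  refine (totalDegree_add _ _).trans (max_le ?_ ?_)
  · rw [totalDegree_C]; omega
  · refine totalDegree_finsetSum_le (fun j _ => ?_)
    refine (totalDegree_mul _ _).trans ?_
    rw [totalDegree_C, zero_add, totalDegree_X]

theorem isAff_C' {ι : Type} [Fintype ι] (c : ℂ) : H1CL.IsAff (C c : MvPolynomial ι ℂ) :=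
  ⟨c, 0, by simp⟩

theorem isAff_C_mul_X' {ι : Type} [Fintype ι] [DecidableEq ι] (c : ℂ) (v : ι) :
    H1CL.IsAff (C c * X v : MvPolynomial ι ℂ) := by
  refine ⟨0, Pi.single v c, ?_⟩
  rw [C_0, zero_add, Finset.sum_eq_single v]
  · simp
  · intro b _ hb
    rw [Pi.single_eq_of_ne hb, C_0, zero_mul]
  · intro h; exact absurd (Finset.mem_univ _) h

theorem arr_aff (z : Fin q) (θ : ℂ) (x y : Fin (q + 1) × Fin h × Yt q h) :
    H1CL.IsAff (Arr q h z θ x y) := by
  unfold Arr
  split_ifs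
  · exact isAff_C_mul_X' _ _
  · exact isAff_C' _
  · rw [← C_0]; exact isAff_C' _

/-- the lower bound in terms of the parameters -/
theorem core (q h n s : ℕ) (hq : 1 ≤ q) (hh : 2 ≤ h)
    (hn : (q + 1) * (3 * 2 ^ q + 1) * h ^ (q + 1) ≤ n) (P : ABP (Fin n × Fin n) (Fin s)) (t : Fin s)
    (ht : P.val t = (Matrix.of fun i j : Fin n =>
      (X (i, j) : MvPolynomial (Fin n × Fin n) ℂ)).permanent) :
    h ^ (3 * q + 1) ≤ 12 * s := by
  classical
  have hhq : 2 ≤ h ^ q := hh.trans (Nat.le_self_pow (by omega) h)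
  set y := h ^ q with hy
  set d := y / 2 with hd
  set k := d + 1 with hk
  have hd1 : 1 ≤ d := by omega
  have hky : k ≤ y := by omega
  let z : Fin q := ⟨0, by omega⟩
  haveI : Nonempty (Fin h) := ⟨⟨0, by omega⟩⟩
  let T := Fin q → Fin h
  have hcT : Fintype.card T = y := by simp [T, hy]
  let eT : T ≃ Fin (Fintype.card T) := Fintype.equivFin T
  let ν : T → ℂ := fun τ => ((eT τ : ℕ) : ℂ)
  have hν : Function.Injective ν := by
    intro a b hab
    have h1 : ((eT a : ℕ) : ℂ) = ((eT b : ℕ) : ℂ) := hab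
    have h2 : (eT a : ℕ) = eT b := by exact_mod_cast h1
    exact eT.injective (Fin.ext h2)
  let b := Fintype.card (Grp q h × Fin (k - 2))
  let eb : Fin b ≃ Grp q h × Fin (k - 2) := (Fintype.equivFin _).symm
  let ℓ : Fin b → Var q h → ℂ := fun j v => if v.1 = (eb j).1 then ν v.2 ^ ((eb j).2 : ℕ) else 0
  have hℓ : ∀ (x : Var q h → ℂ), (∀ j, ∑ v, ℓ j v * x v = 0) →
      ∀ (g : Grp q h) (j : ℕ), j < k - 2 → ∑ τ, ν τ ^ j * x (g, τ) = 0 := by
    intro x hx g j hj
    have h1 := hx (eb.symm (g, ⟨j, hj⟩))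
    have h2 : ∀ v : Var q h, ℓ (eb.symm (g, ⟨j, hj⟩)) v * x v =
        if v.1 = g then ν v.2 ^ j * x v else 0 := by
      intro v
      simp only [ℓ, Equiv.apply_symm_apply]
      split_ifs <;> simp
    simp only [h2] at h1
    rw [Fintype.sum_prod_type, Finset.sum_eq_single g] at h1
    · simpa using h1
    · intro g' _ hg'
      exact Finset.sum_eq_zero fun τ _ => if_neg hg'
    · intro hg; exact absurd (Finset.mem_univ _) hg
  -- the deformation
  obtain ⟨θ, hθ, hF⟩ := t_Pert (Var q h) d (fun θ => Fdef q h k z θ)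
    (fun θ => fdef_hom z θ) (fun μ => fdef_cont z μ) b ℓ (by
      intro x hx1 hx2
      refine t_Sing (Grp q h) T k (by omega) (by rw [hcT]; exact hky) ν hν x ?_ (hℓ x hx2)
      intro i
      have := hx1 i
      rwa [fdef_zero] at this)
  -- the gadget
  obtain ⟨κ, lam, hκ, hlam, hperm⟩ := t_gad t_TopPi (Var q h) (Fin (q + 1)) (Fin h) (Yt q h) k
    (by omega) (Arr q h z θ) (arr_aff z θ) n (by
      refine le_trans ?_ hn
      simp only [Fintype.card_fin, Fintype.card_fun, Yt, Fintype.card_pi, Finset.prod_const,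
        Finset.card_univ]
      have e1 : (2 * h) ^ q = 2 ^ q * h ^ q := mul_pow _ _ _
      rw [e1, pow_succ]
      have e2 : k * ((q + 1) * h) ≤ h ^ q * ((q + 1) * h) := Nat.mul_le_mul_right _ hky
      nlinarith [e2])
  rw [t_val t_Chain q h k z θ rfl (by omega) hθ, ← mul_assoc, ← C_mul] at hperm
  set c : ℂ := κ * (k.factorial : ℂ) ^ q with hc
  have hc0 : c ≠ 0 := mul_ne_zero hκ (pow_ne_zero _ (Nat.cast_ne_zero.2 (Nat.factorial_ne_zero _)))
  -- substitution
  obtain ⟨Q, hQ⟩ := t_Sub (Fin n × Fin n) (Var q h) (Fin s) P (fun v => lam v.2 v.1)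
    (fun v => aff_deg (hlam _ _))
  have hQt : Q.val t = C c * Fdef q h k z θ := by
    rw [hQ, ht, ← hperm]
    unfold Matrix.permanent H1CL.rperm
    simp only [map_sum, map_prod, Matrix.of_apply, aeval_X]
  -- cuts
  obtain ⟨m, g, R, hm, hg0, hR, hJ⟩ := t_Cut (Var q h) (Fin s) Q t d hd1
  rw [hQt] at hJ
  have hAlg := t_alg t_Fin t_Kru (Var q h) (C c * Fdef q h k z θ) R d hd1
    (by
      have := (isHomogeneous_C (Var q h) c).mul (fdef_hom (k := k) z θ)
      rwa [zero_add] at this) hR m b g ℓ hg0 hJ (by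
      intro x hx1 hx2
      refine hF x (fun i => ?_) hx2
      have h1 := hx1 i
      rw [pderiv_C_mul, map_mul, eval_C] at h1
      exact (mul_eq_zero.1 h1).resolve_left hc0)
  -- numerics
  have hcV : Fintype.card (Var q h) = h * y * y := by
    simp [Var, Grp, hy]
  have hcb : b = h * y * (k - 2) := by
    simp only [b, Fintype.card_prod, Fintype.card_fin, Fintype.card_fun, Grp, hy]
  rw [hcV, hcb] at hAlg
  have hm' : m * d ≤ 2 * s := by simpa using hm
  have h1 : h ^ (3 * q + 1) = h * y * y * y := by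
    rw [hy]; ring
  rw [h1]
  -- `m ≥ h y (y - k + 2) ≥ h y y / 2`, `d ≥ y / 3`
  have h2 : h * y * y ≤ 2 * m := by
    have e1 : 2 * (k - 2) ≤ y := by omega
    have e2 : h * y * (2 * (k - 2)) ≤ h * y * y := Nat.mul_le_mul_left _ e1
    nlinarith [hAlg, e2]
  have h3 : y ≤ 3 * d := by omega
  calc h * y * y * y ≤ (2 * m) * (3 * d) := Nat.mul_le_mul h2 h3
    _ = 6 * (m * d) := by ring
    _ ≤ 6 * (2 * s) := Nat.mul_le_mul_left _ hm'
    _ = 12 * s := by ring

end Main

/-- **Layered algebraic branching programs for the permanent have at least `n ^ (3 - ε)` vertices.** -/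
theorem main (ε : ℝ) (hε : 0 < ε) : ∃ n₀ : ℕ, ∀ n : ℕ, n₀ ≤ n → ∀ (s : ℕ)
    (P : ABP (Fin n × Fin n) (Fin s)) (t : Fin s),
    P.val t = (Matrix.of fun i j : Fin n =>
      (X (i, j) : MvPolynomial (Fin n × Fin n) ℂ)).permanent →
    (n : ℝ) ^ (3 - ε) ≤ s := by
  obtain ⟨n₀, hn₀⟩ := t_Num ε hε
  refine ⟨n₀, fun n hn s P t ht => ?_⟩
  obtain ⟨q, h, hq, hh, h1, h2⟩ := hn₀ n hn
  have h3 := Main.core q h n s hq hh h1 P t ht
  refine h2.trans ?_
  rw [div_le_iff₀ (by norm_num)]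
  have h4 : ((h ^ (3 * q + 1) : ℕ) : ℝ) ≤ ((12 * s : ℕ) : ℝ) := by exact_mod_cast h3
  push_cast at h4
  linarith

end Pool.Agent.H33B
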