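import Pool.Agent.Helper1x.CL.GadgetFin

/-!
# Project ABP (helper33), very famous problem MP_499dc6_lc (VP versus VNP)

MAIN THEOREM. For every `ε > 0` and all large `n`: every layered algebraic branching program (any number
of layers, edges labelled by polynomials of degree at most one) over `ℂ` which computes the `n × n`
permanent has at least `n ^ (3 - ε)` vertices. (Known for the permanent: order `n ^ 2`.)

Nothing is proved in this file: every piece is a `Prop` named `S_…`; it is to be proved in its own file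
`Pool/Agent/H33B/<Name>.lean` as `theorem t_… : S_…` in the namespace `Pool.Agent.H33B`.
-/

set_option autoImplicit false
set_option linter.all false

open MvPolynomial Filter Topology

namespace Pool.Agent.H33B

/-- A layered algebraic branching program with vertices `V`: edges go from a layer to the next one and are
labelled by polynomials of degree at most one; layer `0` consists of the source only, `val v` is the sum over
all paths from the source to `v` of the product of the labels. -/
structure ABP (σ V : Type) [Fintype V] where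
  layer : V → ℕ
  src : V
  lab : V → V → MvPolynomial σ ℂ
  val : V → MvPolynomial σ ℂ
  lab_deg : ∀ u v, (lab u v).totalDegree ≤ 1
  layer_src : layer src = 0
  eq_src : ∀ v, layer v = 0 → v = src
  val_src : val src = 1
  val_eq : ∀ v, layer v ≠ 0 →
    val v = ∑ u : V, if layer u + 1 = layer v then val u * lab u v else 0

/-- Piece SUB: affine substitutions. Take the same layers, `lab' u v = aeval lam (lab u v)` and
`val' v = aeval lam (val v)`. -/
def S_Sub : Prop := ∀ (σ τ V : Type) [Fintype V] (P : ABP σ V) (lam : σ → MvPolynomial τ ℂ),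
  (∀ s, (lam s).totalDegree ≤ 1) → ∃ Q : ABP τ V, ∀ v, Q.val v = aeval lam (P.val v)

/-- Piece CUT (cuts of a branching program, after Chatterjee, Kumar, She and Volk).

Proof. Let `T = layer t`. For `r < d` the sets `{v : layer v % d = r}` are disjoint, so one of them has at most
`card V / d` elements; let `cut` be the set of its elements with `0 < layer v < T`.
`α v = val v`. `β v` = sum over the paths from `v` to `t`: a function with `β t = 1`, `β v = 0` for the other `v`
in layer `≥ T`, and `β v = ∑_w [layer v + 1 = layer w] lab v w * β w` for `layer v < T` (define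
it by recursion on `T - layer v`, or as the value at depth `j` by recursion on `j`).
The `g`s are `α v - C (α v)(0)` and `β v - C (β v)(0)` for `v ∈ cut`; let `J` be the ideal they generate.
`lf v` (frozen value), by recursion on the layer: `lf src = 1`,
`lf v = ∑_u [layer u + 1 = layer v] lf' u * lab u v`, where `lf' u = C (α u)(0)` if `u ∈ cut` and
`lf' u = lf u` otherwise. Then `lf v` has degree at most `d` if `layer v ≤ T` (degree at most the distance
to the last cut layer), and `α v - lf' v ∈ J` for all `v` (induction on the layer).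
`R = lf t + ∑_{v ∈ cut} C (β v)(0) * lf v`.
Let `D = pderiv i`, `Φ j = ∑_{layer v = j} D (α v) * β v`, `Ψ j = ∑_{layer v = j} D (lf v) * β v`. The product
rule and the recursions give for `j < T`
`Φ (j+1) = Φ j + ∑_{layer u = j, layer v = j+1} α u * D (lab u v) * β v` and
`Ψ (j+1) = [j is not a cut layer] Ψ j + ∑_{…} lf' u * D (lab u v) * β v`, so
`Φ (j+1) - Φ j - (Ψ (j+1) - Ψ j) - [j cut layer] Ψ j ∈ J`. Sum over `j < T`: `Φ 0 = Ψ 0 = 0`, `Φ T = D (α t)`,
`Ψ T = D (lf t)`, and `Ψ j - ∑_{layer v = j} (β v)(0) D (lf v) ∈ J` for a cut layer `j`. -/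
def S_Cut : Prop := ∀ (σ V : Type) [Fintype V] (P : ABP σ V) (t : V) (d : ℕ), 1 ≤ d →
  ∃ (m : ℕ) (g : Fin m → MvPolynomial σ ℂ) (R : MvPolynomial σ ℂ),
    m * d ≤ 2 * Fintype.card V ∧ (∀ j, constantCoeff (g j) = 0) ∧ R.totalDegree ≤ d ∧
    ∀ i, pderiv i (P.val t - R) ∈ Ideal.span (Set.range g)

/-- Piece FIN. Polynomials `f j` whose forms of degree `e j` (an upper bound of the degree) have only the
trivial common zero: then the quotient by any ideal `I` that contains the `f j` is finite dimensional.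

Proof. By the Nullstellensatz (`MvPolynomial.vanishingIdeal_zeroLocus_eq_radical`) `X s ^ M` is in the ideal of
the forms `homogeneousComponent (e j) (f j)`, for one `M ≥ 1` and all `s`; take the component of degree `M`
of this relation: `X s ^ M = ∑ a j * homogeneousComponent (e j) (f j)` with `a j` homogeneous of degree `M - e j`
(`a j = 0` if `e j > M`). So `X s ^ M` is modulo `I` equal to a polynomial of degree less than `M`. Hence
modulo `I` every monomial of degree at least `M * card σ` equals a polynomial of smaller degree, and the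
quotient is spanned by the monomials of degree less than `M * card σ`. -/
def S_Fin : Prop := ∀ (σ J : Type) [Fintype σ] [Fintype J] (f : J → MvPolynomial σ ℂ) (e : J → ℕ),
  (∀ j, 1 ≤ e j) → (∀ j, (f j).totalDegree ≤ e j) →
  (∀ x : σ → ℂ, (∀ j, eval x (homogeneousComponent (e j) (f j)) = 0) → x = 0) →
  ∀ I : Ideal (MvPolynomial σ ℂ), (∀ j, f j ∈ I) → Module.Finite ℂ (MvPolynomial σ ℂ ⧸ I)

/-- Piece KRU. An ideal generated by `a` polynomials without constant term, with finite dimensional quotient,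
needs `a ≥ card σ`.

Proof. The ideal `I` is contained in the maximal ideal `m₀` of the origin; let `P ≤ m₀` be a minimal prime over
`I`. The quotient by `P` is a finite dimensional domain, hence a field, so `P = m₀`, whose height is `card σ`
(a chain of primes, or Mathlib). By Krull's height theorem (`Ideal.height_le_spanRank_toENat_of_mem_minimal_primes`
or similar) the height of `P` is at most `a`. -/
def S_Kru : Prop := ∀ (σ : Type) [Fintype σ] (a : ℕ) (g : Fin a → MvPolynomial σ ℂ),
  (∀ j, constantCoeff (g j) = 0) →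
  Module.Finite ℂ (MvPolynomial σ ℂ ⧸ Ideal.span (Set.range g)) → Fintype.card σ ≤ a

/-- Piece ALG (from FIN and KRU). Proof: the ideal `I` generated by the `g j` and the linear forms
`∑ s, ℓ j s X s` contains `pderiv i (F - R)`, of degree at most `d` with component
`homogeneousComponent d (pderiv i (F - R)) = pderiv i F` of degree `d`, and the linear forms. -/
def S_Alg : Prop := ∀ (σ : Type) [Fintype σ] (F R : MvPolynomial σ ℂ) (d : ℕ), 1 ≤ d →
  F.IsHomogeneous (d + 1) → R.totalDegree ≤ d → ∀ (a b : ℕ) (g : Fin a → MvPolynomial σ ℂ)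
  (ℓ : Fin b → σ → ℂ), (∀ j, constantCoeff (g j) = 0) →
  (∀ i, pderiv i (F - R) ∈ Ideal.span (Set.range g)) →
  (∀ x : σ → ℂ, (∀ i, eval x (pderiv i F) = 0) → (∀ j, ∑ s, ℓ j s * x s = 0) → x = 0) →
  Fintype.card σ ≤ a + b

/-- Piece PERT. A family of forms depending continuously on `θ`: if at `θ = 0` the only common zero of the
partial derivatives and the linear forms is the origin, then this holds for some `θ ≠ 0` too.
Proof: otherwise for `θ = 1 / (j+1)` there are zeros of norm one; a subsequence converges, the limit is a zero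
for `θ = 0` of norm one. (Only finitely many monomials of degree `d + 1` matter.) -/
def S_Pert : Prop := ∀ (σ : Type) [Fintype σ] (d : ℕ) (F : ℂ → MvPolynomial σ ℂ),
  (∀ θ, (F θ).IsHomogeneous (d + 1)) → (∀ μ, Continuous fun θ => coeff μ (F θ)) →
  ∀ (b : ℕ) (ℓ : Fin b → σ → ℂ),
  (∀ x : σ → ℂ, (∀ i, eval x (pderiv i (F 0)) = 0) → (∀ j, ∑ s, ℓ j s * x s = 0) → x = 0) →
  ∃ θ : ℂ, θ ≠ 0 ∧
    ∀ x : σ → ℂ, (∀ i, eval x (pderiv i (F θ)) = 0) → (∀ j, ∑ s, ℓ j s * x s = 0) → x = 0

/-- Piece SING. The form `∑_g k! e_k (X (g, ·))`, a sum of elementary symmetric polynomials in disjoint sets of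
variables: its partial derivatives and `k - 2` Vandermonde forms for every `g` have only the trivial zero.

Proof. Fix `g`; `y t = x (g, t)`, `S` its support, `r = card S`. Suppose `r ≥ k - 1`. The derivatives
say `e_{k-1} (y without t) = 0` for all `t : T` (up to the factor `k`!`…`). Write `E_j = e_j (y)` and `E_j^t =
e_j (y without t)`; `E_j = E_j^t + y t * E_{j-1}^t`, and `∑_{t ∈ S} E_j^t = (r - j) E_j` (sums over the support).
If `r ≥ k`: `∑_{t ∈ S} E_{k-1}^t = (r - k + 1) E_{k-1}`, so `E_{k-1} = 0`, so `E_{k-2}^t = 0` for `t ∈ S`, so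
`E_{k-2} = 0` and so on down to `E_0^t = 1 = 0`, a contradiction. If `r = k - 1`: take a `t ∉ S`, which exists
since `k ≤ card T`: `E_{k-1}^t = ∏_{s ∈ S} y s ≠ 0`. So `r ≤ k - 2`, and the Vandermonde system
`∑_{t ∈ S} (ν t) ^ j * y t = 0`, `j < k - 2`, gives `y = 0` (`Matrix.det_vandermonde_ne_zero_iff`). -/
def S_Sing : Prop := ∀ (Γ T : Type) [Fintype Γ] [Fintype T] (k : ℕ), 2 ≤ k → k ≤ Fintype.card T →
  ∀ ν : T → ℂ, Function.Injective ν → ∀ x : Γ × T → ℂ,
  (∀ i, eval x (pderiv i (∑ g : Γ, ∑ τ : Fin k ↪ T, ∏ j, X (g, τ j) : MvPolynomial (Γ × T) ℂ)) = 0) →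
  (∀ (g : Γ) (j : ℕ), j < k - 2 → ∑ t, ν t ^ j * x (g, t) = 0) → x = 0

/-- Piece TOPPI. The all-ones coefficient of a product of polynomials in disjoint sets of variables
(`H1CL.top` of `Helper1x/CL/TopStm.lean`). Proof: expand the `q l` in monomials
(`Finset.prod_univ_sum`), or `L` finite induction with T2. -/
def S_TopPi : Prop := ∀ (L K S : Type) [Fintype L] [Fintype K] [CommRing S]
  (q : L → MvPolynomial K S),
  H1CL.top (∏ l, rename (fun b : K => (l, b)) (q l)) = ∏ l, H1CL.top (q l)

/-- Piece GAD (helper33): the gadget with any number of layers. -/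
def S_Gad : Prop := ∀ (ι L G Y : Type) [Fintype ι] [DecidableEq ι] [Fintype L] [DecidableEq L]
  [Fintype G] [DecidableEq G] [Nonempty G] [Fintype Y] [DecidableEq Y] (k : ℕ), 1 ≤ k →
  ∀ A : L × G × Y → L × G × Y → MvPolynomial ι ℂ, (∀ x y, H1CL.IsAff (A x y)) → ∀ n : ℕ,
  3 * (Fintype.card L * (Fintype.card G * Fintype.card Y)) +
    k * (Fintype.card L * Fintype.card G) ≤ n →
  ∃ (κ : ℂ) (lam : Fin n → Fin n → MvPolynomial ι ℂ), κ ≠ 0 ∧ (∀ i j, H1CL.IsAff (lam i j)) ∧
    H1CL.rperm lam = C κ * ∑ g : L → G, ∑ τ : L → (Fin k ↪ Y), ∑ ρ : Equiv.Perm (L × Fin k),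
      ∏ p : L × Fin k, A (p.1, g p.1, τ p.1 p.2)
        ((ρ p).1, g (ρ p).1, τ (ρ p).1 (ρ p).2)

/-- The variables: `(a, d)` is the group (block row and vector of differences), `τ` the position. -/
abbrev Grp (q h : ℕ) : Type := Fin h × (Fin q → Fin h)
abbrev Var (q h : ℕ) : Type := Grp q h × (Fin q → Fin h)

/-- The local indices of the stations. -/
abbrev Yt (q h : ℕ) : Type := Fin q → Fin (2 * h)

/-- Sum of the squares of the coordinates. -/
def sq {q h : ℕ} (d : Fin q → Fin h) : ℕ := ∑ c, (d c : ℕ) ^ 2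

/-- The array: arcs from layer `l` to layer `l + 1` (`l < q`) subtract the group number from coordinate `l`;
arcs from the last layer to layer `0` carry the variables. `z` is the first coordinate. -/
noncomputable def Arr (q h : ℕ) (z : Fin q) (θ : ℂ) :
    Fin (q + 1) × Fin h × Yt q h → Fin (q + 1) × Fin h × Yt q h → MvPolynomial (Var q h) ℂ :=
  open Classical in fun x y =>
  if hW : x.1 = Fin.last q ∧ y.1 = 0 ∧ ∃ τ d : Fin q → Fin h,
      (∀ c, (x.2.2 c : ℕ) = τ c) ∧ (∀ c, (y.2.2 c : ℕ) = τ c + d c) ∧ y.2.1 = d z then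
    C (θ ^ sq hW.2.2.choose_spec.choose) *
      X ((x.2.1, hW.2.2.choose_spec.choose), hW.2.2.choose)
  else if ∃ l : Fin q, x.1 = l.castSucc ∧ y.1 = l.succ ∧
      ∀ c, (x.2.2 c : ℕ) = y.2.2 c + if c = l then (x.2.1 : ℕ) else 0 then
    C ((θ⁻¹) ^ ((x.2.1 : ℕ) ^ 2))
  else 0

/-- The exponent of `θ` belonging to the positions `τ` and the permutation `ρ`. -/
def Ex {q h k : ℕ} (τ : Fin k → Fin q → Fin h) (ρ : Equiv.Perm (Fin k)) : ℕ :=
  ∑ i, ∑ c, (((τ (ρ i) c : ℕ) : ℤ) - ((τ i c : ℕ) : ℤ)).natAbs ^ 2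

/-- The variable that joins position `τ` to position `τ'` shifted by `d`. -/
noncomputable def Mo {q h : ℕ} (z : Fin q) (a : Fin h) (d τ τ' : Fin q → Fin h) :
    MvPolynomial (Var q h) ℂ :=
  open Classical in
  if hd : ∃ d' : Fin q → Fin h, (∀ c, (τ' c : ℕ) + d c = τ c + d' c) ∧ d' z = d z then
    X ((a, hd.choose), τ) else 0

/-- The deformed form. -/
noncomputable def Fdef (q h k : ℕ) (z : Fin q) (θ : ℂ) : MvPolynomial (Var q h) ℂ :=
  ∑ g : Grp q h, ∑ τ : Fin k ↪ (Fin q → Fin h), ∑ ρ : Equiv.Perm (Fin k),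
    C (θ ^ Ex τ ρ) * ∏ i, Mo z g.1 g.2 (τ i) (τ (ρ i))

/-- Piece CHAIN: elimination of the chain of layers. For any ring `S`, shifts `s l` (`l < q`), a set `Y` embedded in
`ℕ^q` which contains with `υ` and `υ - w` all points between them: the sum over the sequences `τ l` and the
permutations `π l` of the product of the conditions `pt (τ l i) = pt (τ (l+1) (π l i)) + s l`, times a
function `Ψ` of the first and of the last sequence which is invariant under permutation of the last one.
Proof: induction on `m`, eliminating the last layer (for a given `π` there is at most one `τ (last)`). -/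
def S_Chain : Prop := ∀ (q h k m : ℕ) (S : Type) [CommRing S] (s : Fin m → Fin q → ℕ)
  (Ψ : (Fin k ↪ Yt q h) → (Fin k ↪ Yt q h) → S),
  (∀ (σ υ : Fin k ↪ Yt q h) (π : Equiv.Perm (Fin k)), Ψ σ (π.toEmbedding.trans υ) = Ψ σ υ) →
  ∀ σ : Fin k ↪ Yt q h,
  (∑ τ : Fin (m + 1) → (Fin k ↪ Yt q h), ∑ π : Fin m → Equiv.Perm (Fin k),
    (if τ 0 = σ ∧ ∀ (l : Fin m) (i : Fin k) (c : Fin q),
      (τ l.castSucc i c : ℕ) = τ l.succ (π l i) c + s l c then Ψ σ (τ (Fin.last m)) else 0)) =
  ((k.factorial : S)) ^ m * ∑ υ : Fin k ↪ Yt q h,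
    if ∀ (i : Fin k) (c : Fin q), (σ i c : ℕ) = υ i c + ∑ l, s l c then Ψ σ υ else 0

/-- Piece VAL (helper33; from CHAIN). -/
def S_Val : Prop := ∀ (q h k : ℕ) (z : Fin q) (θ : ℂ), (z : ℕ) = 0 → 1 ≤ h → θ ≠ 0 →
  (∑ g : Fin (q + 1) → Fin h, ∑ τ : Fin (q + 1) → (Fin k ↪ Yt q h),
    ∑ ρ : Equiv.Perm (Fin (q + 1) × Fin k), ∏ p : Fin (q + 1) × Fin k,
      Arr q h z θ (p.1, g p.1, τ p.1 p.2) ((ρ p).1, g (ρ p).1, τ (ρ p).1 (ρ p).2)) =
  C ((k.factorial : ℂ) ^ q) * Fdef q h k z θ

/-- Piece NUM (numerics). `C = (q+1) (3 * 2^q + 1)`, `h = ⌊(n / C)^(1/(q+1))⌋`. -/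
def S_Num : Prop := ∀ ε : ℝ, 0 < ε → ∃ n₀ : ℕ, ∀ n : ℕ, n₀ ≤ n → ∃ q h : ℕ, 1 ≤ q ∧ 2 ≤ h ∧
  (q + 1) * (3 * 2 ^ q + 1) * h ^ (q + 1) ≤ n ∧ (n : ℝ) ^ (3 - ε) ≤ (h : ℝ) ^ (3 * q + 1) / 12

end Pool.Agent.H33B
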