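import Pool.Agent.H33B.Stm

/-!
# Piece VAL of project ABP (helper33): the value of the gadget
-/

set_option autoImplicit false
set_option linter.all false

open MvPolynomial

namespace Pool.Agent.H33B.Val

open Classical

variable {q h k : ℕ}

/-- arcs between consecutive layers -/
theorem arr_chain (z : Fin q) (θ : ℂ) (l : Fin q) (a b : Fin h) (υ υ' : Yt q h) :
    Arr q h z θ (l.castSucc, a, υ) (l.succ, b, υ') =
      if ∀ c, (υ c : ℕ) = υ' c + if c = l then (a : ℕ) else 0 then C ((θ⁻¹) ^ ((a : ℕ) ^ 2)) else 0 := by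
  unfold Arr
  have h1 : ¬ (l.castSucc = Fin.last q) := (Fin.castSucc_lt_last l).ne
  rw [dif_neg (fun hW => h1 hW.1)]
  by_cases hc : ∀ c, (υ c : ℕ) = υ' c + if c = l then (a : ℕ) else 0
  · rw [if_pos hc, if_pos ⟨l, rfl, rfl, hc⟩]
  · rw [if_neg hc, if_neg]
    rintro ⟨l', hl, -, hc'⟩
    have : l = l' := Fin.castSucc_injective _ hl
    subst this
    exact hc hc'

theorem arr_chain0 (z : Fin q) (θ : ℂ) (l : Fin q) (a : Fin h) (υ : Yt q h)
    (y : Fin (q + 1) × Fin h × Yt q h) (hy : y.1 ≠ l.succ) :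
    Arr q h z θ (l.castSucc, a, υ) y = 0 := by
  unfold Arr
  have h1 : ¬ (l.castSucc = Fin.last q) := (Fin.castSucc_lt_last l).ne
  rw [dif_neg (fun hW => h1 hW.1), if_neg]
  rintro ⟨l', hl, hl2, -⟩
  have : l = l' := Fin.castSucc_injective _ hl
  subst this
  exact hy hl2

theorem arr_last0 (z : Fin q) (θ : ℂ) (a : Fin h) (υ : Yt q h)
    (y : Fin (q + 1) × Fin h × Yt q h) (hy : y.1 ≠ 0) :
    Arr q h z θ (Fin.last q, a, υ) y = 0 := by
  unfold Arr
  rw [dif_neg (fun hW => hy hW.2.1), if_neg]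
  rintro ⟨l', hl, -, -⟩
  exact (Fin.castSucc_lt_last l').ne hl.symm

theorem arr_out (z : Fin q) (θ : ℂ) (a b : Fin h) (υ υ' : Yt q h)
    (hυ : ¬ ∃ τ : Fin q → Fin h, ∀ c, (υ c : ℕ) = τ c) :
    Arr q h z θ (Fin.last q, a, υ) (0, b, υ') = 0 := by
  unfold Arr
  rw [dif_neg, if_neg]
  · rintro ⟨l', hl, -, -⟩
    exact (Fin.castSucc_lt_last l').ne hl.symm
  · rintro ⟨-, -, τ, d, h1, -⟩
    exact hυ ⟨τ, h1⟩

/-- the embedding of the small cube -/
def emb (τ : Fin q → Fin h) : Yt q h := fun c => ⟨(τ c : ℕ), by have := (τ c).2; omega⟩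

/-- translation -/
def trl (τ d : Fin q → Fin h) : Yt q h := fun c => ⟨(τ c : ℕ) + d c, by
  have := (τ c).2; have := (d c).2; omega⟩

theorem arr_last (z : Fin q) (θ : ℂ) (a : Fin h) (τ τ' d : Fin q → Fin h) :
    Arr q h z θ (Fin.last q, a, emb τ) (0, d z, trl τ' d) =
      if hd : ∃ d' : Fin q → Fin h, (∀ c, (τ' c : ℕ) + d c = τ c + d' c) ∧ d' z = d z then
        C (θ ^ sq hd.choose) * X ((a, hd.choose), τ) else 0 := by
  by_cases hd : ∃ d' : Fin q → Fin h, (∀ c, (τ' c : ℕ) + d c = τ c + d' c) ∧ d' z = d z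
  · rw [dif_pos hd]
    have hs := hd.choose_spec
    have hW : (Fin.last q, a, emb τ).1 = Fin.last q ∧
        ((0 : Fin (q + 1)), d z, trl τ' d).1 = 0 ∧ ∃ τ₁ d₁ : Fin q → Fin h,
      (∀ c, (((Fin.last q, a, emb τ) : Fin (q + 1) × Fin h × Yt q h).2.2 c : ℕ) = τ₁ c) ∧
      (∀ c, ((((0 : Fin (q + 1)), d z, trl τ' d) : Fin (q + 1) × Fin h × Yt q h).2.2 c : ℕ) =
        τ₁ c + d₁ c) ∧ (((0 : Fin (q + 1)), d z, trl τ' d) : Fin (q + 1) × Fin h × Yt q h).2.1 = d₁ z :=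
      ⟨rfl, rfl, τ, hd.choose, fun c => rfl, fun c => hs.1 c, hs.2.symm⟩
    unfold Arr
    rw [dif_pos hW]
    obtain ⟨h1, h2, h3⟩ := hW.2.2.choose_spec.choose_spec
    have e1 : hW.2.2.choose = τ := by
      funext c
      apply Fin.ext
      rw [← h1 c]
      rfl
    have e2 : hW.2.2.choose_spec.choose = hd.choose := by
      funext c
      apply Fin.ext
      have h4 := h2 c
      have h5 := hs.1 c
      have h6 : ((trl τ' d c : Fin (2 * h)) : ℕ) = τ' c + d c := rfl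
      have h7 : ((hW.2.2.choose c : Fin h) : ℕ) = τ c := by rw [e1]
      change ((trl τ' d c : Fin (2 * h)) : ℕ) = _ at h4
      omega
    rw [e2, e1]
  · rw [dif_neg hd]
    unfold Arr
    rw [dif_neg, if_neg]
    · rintro ⟨l', hl, -, -⟩
      exact (Fin.castSucc_lt_last l').ne hl.symm
    · rintro ⟨-, -, τ₁, d₁, h1, h2, h3⟩
      apply hd
      refine ⟨d₁, fun c => ?_, h3.symm⟩
      have h4 := h1 c
      have h5 := h2 c
      have h6 : ((trl τ' d c : Fin (2 * h)) : ℕ) = τ' c + d c := rfl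
      have h7 : ((emb τ c : Fin (2 * h)) : ℕ) = τ c := rfl
      change ((emb τ c : Fin (2 * h)) : ℕ) = _ at h4
      change ((trl τ' d c : Fin (2 * h)) : ℕ) = _ at h5
      omega

/-! ### the permutations -/

/-- the permutation of the positions given by permutations of the layers -/
def shear (π : Fin (q + 1) → Equiv.Perm (Fin k)) : Equiv.Perm (Fin (q + 1) × Fin k) :=
  Equiv.prodShear (Equiv.addRight 1) π

theorem shear_apply (π : Fin (q + 1) → Equiv.Perm (Fin k)) (p : Fin (q + 1) × Fin k) :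
    shear π p = (p.1 + 1, π p.1 p.2) := rfl

theorem shear_inj : Function.Injective (shear (q := q) (k := k)) := by
  intro π π' hh
  funext l
  ext i
  have h1 := DFunLike.congr_fun hh (l, i)
  rw [shear_apply, shear_apply] at h1
  exact congrArg Fin.val (Prod.ext_iff.1 h1).2

theorem exists_shear (ρ : Equiv.Perm (Fin (q + 1) × Fin k)) (hρ : ∀ p, (ρ p).1 = p.1 + 1) :
    ∃ π, shear π = ρ := by
  have hb : ∀ l, Function.Bijective (fun i => (ρ (l, i)).2) := by
    intro l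
    apply Finite.injective_iff_bijective.1
    intro i j hij
    have h1 : ρ (l, i) = ρ (l, j) := Prod.ext ((hρ (l, i)).trans (hρ (l, j)).symm) hij
    exact (Prod.ext_iff.1 (ρ.injective h1)).2
  refine ⟨fun l => Equiv.ofBijective _ (hb l), ?_⟩
  ext1 p
  rw [shear_apply]
  exact Prod.ext (hρ p).symm rfl

theorem sum_perm (z : Fin q) (θ : ℂ) (g : Fin (q + 1) → Fin h)
    (τ : Fin (q + 1) → (Fin k ↪ Yt q h)) :
    (∑ ρ : Equiv.Perm (Fin (q + 1) × Fin k), ∏ p : Fin (q + 1) × Fin k,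
      Arr q h z θ (p.1, g p.1, τ p.1 p.2) ((ρ p).1, g (ρ p).1, τ (ρ p).1 (ρ p).2)) =
    ∑ π : Fin q → Equiv.Perm (Fin k), ∑ π' : Equiv.Perm (Fin k),
      (∏ l : Fin q, ∏ i, Arr q h z θ (l.castSucc, g l.castSucc, τ l.castSucc i)
        (l.succ, g l.succ, τ l.succ (π l i))) *
      ∏ i, Arr q h z θ (Fin.last q, g (Fin.last q), τ (Fin.last q) i) (0, g 0, τ 0 (π' i)) := by
  have h1 : (∑ ρ : Equiv.Perm (Fin (q + 1) × Fin k), ∏ p : Fin (q + 1) × Fin k,
      Arr q h z θ (p.1, g p.1, τ p.1 p.2) ((ρ p).1, g (ρ p).1, τ (ρ p).1 (ρ p).2)) =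
      ∑ π : Fin (q + 1) → Equiv.Perm (Fin k), ∏ p : Fin (q + 1) × Fin k,
      Arr q h z θ (p.1, g p.1, τ p.1 p.2) (p.1 + 1, g (p.1 + 1), τ (p.1 + 1) (π p.1 p.2)) := by
    symm
    refine Finset.sum_of_injOn shear (shear_inj.injOn) (fun _ _ => Finset.mem_coe.2 (Finset.mem_univ _)) ?_ ?_
    · intro ρ _ hρ
      by_cases hc : ∀ p, (ρ p).1 = p.1 + 1
      · obtain ⟨π, hπ⟩ := exists_shear ρ hc
        exact absurd ⟨π, Finset.mem_coe.2 (Finset.mem_univ _), hπ⟩ hρ
      · push Not at hc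
        obtain ⟨p, hp⟩ := hc
        refine Finset.prod_eq_zero (Finset.mem_univ p) ?_
        obtain ⟨l, i⟩ := p
        rcases Fin.eq_castSucc_or_eq_last l with ⟨l', rfl⟩ | rfl
        · refine arr_chain0 z θ l' _ _ _ ?_
          rw [← Fin.coeSucc_eq_succ]
          exact hp
        · refine arr_last0 z θ _ _ _ ?_
          rw [← Fin.last_add_one]
          exact hp
    · intro π _
      rfl
  rw [h1]
  have h2 := (Fin.snocEquiv (fun _ : Fin (q + 1) => Equiv.Perm (Fin k))).sum_comp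
    (fun π => ∏ p : Fin (q + 1) × Fin k,
      Arr q h z θ (p.1, g p.1, τ p.1 p.2) (p.1 + 1, g (p.1 + 1), τ (p.1 + 1) (π p.1 p.2)))
  rw [← h2, Fintype.sum_prod_type, Finset.sum_comm]
  refine Finset.sum_congr rfl fun π _ => Finset.sum_congr rfl fun π' _ => ?_
  rw [Fintype.prod_prod_type, Fin.prod_univ_castSucc]
  have h3 : ∀ l : Fin q, (Fin.snocEquiv (fun _ : Fin (q + 1) => Equiv.Perm (Fin k))) (π', π)
      l.castSucc = π l := by
    intro l
    simp [Fin.snocEquiv]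
  have h4 : (Fin.snocEquiv (fun _ : Fin (q + 1) => Equiv.Perm (Fin k))) (π', π)
      (Fin.last q) = π' := by
    simp [Fin.snocEquiv]
  simp only [h3, h4, Fin.coeSucc_eq_succ, Fin.last_add_one]

/-- product of equal conditions -/
theorem prod_ite_all {ι : Type} [Fintype ι] {R : Type} [CommRing R] (P : ι → Prop) (a : R)
    [∀ i, Decidable (P i)] [Decidable (∀ i, P i)] :
    (∏ i, (if P i then a else 0)) = if ∀ i, P i then a ^ Fintype.card ι else 0 := by
  by_cases hc : ∀ i, P i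
  · rw [if_pos hc]
    simp only [hc, if_true]
    rw [Finset.prod_const, Finset.card_univ]
  · rw [if_neg hc]
    push Not at hc
    obtain ⟨i, hi⟩ := hc
    exact Finset.prod_eq_zero (Finset.mem_univ i) (if_neg hi)

theorem prod_ite_all' {ι : Type} [Fintype ι] {R : Type} [CommRing R] (P : ι → Prop) (a : ι → R)
    [∀ i, Decidable (P i)] [Decidable (∀ i, P i)] :
    (∏ i, (if P i then a i else 0)) = if ∀ i, P i then ∏ i, a i else 0 := by
  by_cases hc : ∀ i, P i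
  · rw [if_pos hc]
    simp only [hc, if_true]
  · rw [if_neg hc]
    push Not at hc
    obtain ⟨i, hi⟩ := hc
    exact Finset.prod_eq_zero (Finset.mem_univ i) (if_neg hi)

/-- the factor of the chain -/
noncomputable def Kf (θ : ℂ) (d : Fin q → Fin h) (k : ℕ) : MvPolynomial (Var q h) ℂ :=
  ∏ l : Fin q, (C ((θ⁻¹) ^ ((d l : ℕ) ^ 2))) ^ k

/-- the function of the first and the last sequence -/
noncomputable def Psi (z : Fin q) (θ : ℂ) (a b : Fin h) (σ υ : Fin k ↪ Yt q h) :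
    MvPolynomial (Var q h) ℂ :=
  ∑ π' : Equiv.Perm (Fin k), ∏ i, Arr q h z θ (Fin.last q, a, υ i) (0, b, σ (π' i))

theorem psi_inv (z : Fin q) (θ : ℂ) (a b : Fin h) (σ υ : Fin k ↪ Yt q h) (π : Equiv.Perm (Fin k)) :
    Psi z θ a b σ (π.toEmbedding.trans υ) = Psi z θ a b σ υ := by
  unfold Psi
  refine Fintype.sum_equiv (Equiv.mulRight π⁻¹) _ _ fun π' => ?_
  refine Fintype.prod_equiv π _ _ fun i => ?_
  simp [Equiv.mulRight]

/-- the shifts -/
def sh (d : Fin q → Fin h) (l c : Fin q) : ℕ := if c = l then (d l : ℕ) else 0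

theorem sum_sh (d : Fin q → Fin h) (c : Fin q) : ∑ l, sh d l c = d c := by
  unfold sh
  simp

theorem chain_prod (z : Fin q) (θ : ℂ) (g : Fin (q + 1) → Fin h)
    (τ : Fin (q + 1) → (Fin k ↪ Yt q h)) (π : Fin q → Equiv.Perm (Fin k)) :
    (∏ l : Fin q, ∏ i, Arr q h z θ (l.castSucc, g l.castSucc, τ l.castSucc i)
        (l.succ, g l.succ, τ l.succ (π l i))) =
      if ∀ (l : Fin q) (i : Fin k) (c : Fin q),
        (τ l.castSucc i c : ℕ) = τ l.succ (π l i) c + sh (fun l => g l.castSucc) l c then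
        Kf θ (fun l => g l.castSucc) k else 0 := by
  rw [Finset.prod_congr rfl fun l _ => Finset.prod_congr rfl fun i _ => arr_chain z θ l _ _ _ _]
  rw [Finset.prod_congr rfl fun l _ => prod_ite_all _ _]
  rw [prod_ite_all']
  simp only [Fintype.card_fin]
  rfl

theorem per_g (hCh : S_Chain) (z : Fin q) (θ : ℂ) (g : Fin (q + 1) → Fin h) :
    (∑ τ : Fin (q + 1) → (Fin k ↪ Yt q h),
    ∑ ρ : Equiv.Perm (Fin (q + 1) × Fin k), ∏ p : Fin (q + 1) × Fin k,
      Arr q h z θ (p.1, g p.1, τ p.1 p.2) ((ρ p).1, g (ρ p).1, τ (ρ p).1 (ρ p).2)) =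
    Kf θ (fun l => g l.castSucc) k * (((k.factorial : MvPolynomial (Var q h) ℂ)) ^ q *
      ∑ σ : Fin k ↪ Yt q h, ∑ υ : Fin k ↪ Yt q h,
        if ∀ (i : Fin k) (c : Fin q), (σ i c : ℕ) = υ i c + (g c.castSucc : ℕ) then
          Psi z θ (g (Fin.last q)) (g 0) σ υ else 0) := by
  have h0 : ∀ σ : Fin k ↪ Yt q h, ((k.factorial : MvPolynomial (Var q h) ℂ)) ^ q *
      (∑ υ : Fin k ↪ Yt q h,
        if ∀ (i : Fin k) (c : Fin q), (σ i c : ℕ) = υ i c + (g c.castSucc : ℕ) then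
          Psi z θ (g (Fin.last q)) (g 0) σ υ else 0) =
      (∑ τ : Fin (q + 1) → (Fin k ↪ Yt q h), ∑ π : Fin q → Equiv.Perm (Fin k),
    (if τ 0 = σ ∧ ∀ (l : Fin q) (i : Fin k) (c : Fin q),
      (τ l.castSucc i c : ℕ) = τ l.succ (π l i) c + sh (fun l => g l.castSucc) l c then
        Psi z θ (g (Fin.last q)) (g 0) σ (τ (Fin.last q)) else 0)) := by
    intro σ
    rw [hCh q h k q (MvPolynomial (Var q h) ℂ) (sh (fun l => g l.castSucc))
      (Psi z θ (g (Fin.last q)) (g 0)) (psi_inv z θ _ _) σ]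
    simp only [sum_sh]
  have h00 : ((k.factorial : MvPolynomial (Var q h) ℂ)) ^ q *
      (∑ σ : Fin k ↪ Yt q h, ∑ υ : Fin k ↪ Yt q h,
        if ∀ (i : Fin k) (c : Fin q), (σ i c : ℕ) = υ i c + (g c.castSucc : ℕ) then
          Psi z θ (g (Fin.last q)) (g 0) σ υ else 0) =
      ∑ σ : Fin k ↪ Yt q h,
      (∑ τ : Fin (q + 1) → (Fin k ↪ Yt q h), ∑ π : Fin q → Equiv.Perm (Fin k),
    (if τ 0 = σ ∧ ∀ (l : Fin q) (i : Fin k) (c : Fin q),
      (τ l.castSucc i c : ℕ) = τ l.succ (π l i) c + sh (fun l => g l.castSucc) l c then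
        Psi z θ (g (Fin.last q)) (g 0) σ (τ (Fin.last q)) else 0)) := by
    rw [Finset.mul_sum]
    exact Finset.sum_congr rfl fun σ _ => h0 σ
  rw [h00]
  simp only [sum_perm]
  conv_rhs => rw [Finset.sum_comm, Finset.mul_sum]
  refine Finset.sum_congr rfl fun τ _ => ?_
  conv_rhs => rw [Finset.sum_comm, Finset.mul_sum]
  refine Finset.sum_congr rfl fun π _ => ?_
  rw [← Finset.mul_sum, chain_prod]
  rw [Finset.sum_eq_single (τ 0)]
  · by_cases hc : ∀ (l : Fin q) (i : Fin k) (c : Fin q),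
      (τ l.castSucc i c : ℕ) = τ l.succ (π l i) c + sh (fun l => g l.castSucc) l c
    · rw [if_pos hc, if_pos ⟨rfl, hc⟩]
      rfl
    · rw [if_neg hc, if_neg (fun hh => hc hh.2), zero_mul, mul_zero]
  · intro σ _ hσ
    rw [if_neg (fun hh => hσ hh.1.symm)]
  · intro hh
    exact absurd (Finset.mem_univ _) hh

/-! ### the last step -/

theorem emb_inj : Function.Injective (emb (q := q) (h := h)) := by
  intro τ τ' hh
  funext c
  apply Fin.ext
  have := congrArg Fin.val (congrFun hh c)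
  exact this

theorem trl_inj (d : Fin q → Fin h) : Function.Injective (fun τ => trl τ d) := by
  intro τ τ' hh
  funext c
  apply Fin.ext
  have := congrArg Fin.val (congrFun hh c)
  change (τ c : ℕ) + d c = τ' c + d c at this
  omega

theorem two_sums (z : Fin q) (θ : ℂ) (a : Fin h) (d : Fin q → Fin h) :
    (∑ σ : Fin k ↪ Yt q h, ∑ υ : Fin k ↪ Yt q h,
        if ∀ (i : Fin k) (c : Fin q), (σ i c : ℕ) = υ i c + (d c : ℕ) then
          Psi z θ a (d z) σ υ else 0) =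
      ∑ τ : Fin k ↪ (Fin q → Fin h),
        Psi z θ a (d z) (τ.trans ⟨_, trl_inj d⟩) (τ.trans ⟨_, emb_inj⟩) := by
  refine (Fintype.sum_prod_type' (fun (σ υ : Fin k ↪ Yt q h) => (if ∀ (i : Fin k) (c : Fin q),
    (σ i c : ℕ) = υ i c + (d c : ℕ) then Psi z θ a (d z) σ υ else 0 :
      MvPolynomial (Var q h) ℂ))).symm.trans ?_
  symm
  refine Finset.sum_of_injOn (fun τ : Fin k ↪ (Fin q → Fin h) =>
    ((τ.trans ⟨_, trl_inj d⟩ : Fin k ↪ Yt q h), (τ.trans ⟨_, emb_inj⟩ : Fin k ↪ Yt q h))) ?_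
    (fun _ _ => Finset.mem_coe.2 (Finset.mem_univ _)) ?_ ?_
  · intro τ _ τ' _ hh
    have h1 := (Prod.ext_iff.1 hh).2
    ext1 i
    have h2 := DFunLike.congr_fun h1 i
    exact emb_inj h2
  · rintro ⟨σ, υ⟩ _ hn
    by_cases hc : ∀ (i : Fin k) (c : Fin q), (σ i c : ℕ) = υ i c + (d c : ℕ)
    · rw [if_pos hc]
      by_cases hr : ∀ i, ∃ τ : Fin q → Fin h, ∀ c, (υ i c : ℕ) = τ c
      · exfalso
        apply hn
        choose τ hτ using hr
        have hinj : Function.Injective τ := by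
          intro i j hij
          apply υ.injective
          funext c
          apply Fin.ext
          rw [hτ, hτ, hij]
        refine ⟨⟨τ, hinj⟩, Finset.mem_coe.2 (Finset.mem_univ _), ?_⟩
        refine Prod.ext ?_ ?_
        · ext i c
          rw [hc i c, hτ]
          rfl
        · ext i c
          rw [hτ]
          rfl
      · push Not at hr
        obtain ⟨i, hi⟩ := hr
        unfold Psi
        refine Finset.sum_eq_zero fun π' _ => Finset.prod_eq_zero (Finset.mem_univ i) ?_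
        refine arr_out z θ _ _ _ _ ?_
        rintro ⟨τ, hτ⟩
        obtain ⟨c, hc'⟩ := hi τ
        exact hc' (hτ c)
    · rw [if_neg hc]
  · intro τ _
    rw [if_pos]
    intro i c
    rfl

theorem exponents (τ : Fin k → Fin q → Fin h) (ρ : Equiv.Perm (Fin k)) (d : Fin q → Fin h)
    (d' : Fin k → Fin q → Fin h) (hd : ∀ i c, (τ (ρ i) c : ℕ) + d c = τ i c + d' i c) :
    ∑ i, sq (d' i) = Ex τ ρ + k * sq d := by
  have key : ((∑ i, sq (d' i) : ℕ) : ℤ) = ((Ex τ ρ + k * sq d : ℕ) : ℤ) := by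
    unfold sq Ex
    push_cast
    have h1 : ∀ i c, (d' i c : ℤ) = ((τ (ρ i) c : ℕ) : ℤ) - ((τ i c : ℕ) : ℤ) + ((d c : ℕ) : ℤ) := by
      intro i c
      have := hd i c
      have h2 : (((τ (ρ i) c : ℕ) + d c : ℕ) : ℤ) = ((τ i c + d' i c : ℕ) : ℤ) := by rw [this]
      push_cast at h2
      linarith
    have h3 : ∀ c, ∑ i, (((τ (ρ i) c : ℕ) : ℤ) - ((τ i c : ℕ) : ℤ)) = 0 := by
      intro c
      rw [Finset.sum_sub_distrib, sub_eq_zero]
      exact Equiv.sum_comp ρ (fun i => ((τ i c : ℕ) : ℤ))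
    have h4 : ∑ i, ∑ c, ((d' i c : ℕ) : ℤ) ^ 2 =
        ∑ i, ∑ c, ((((τ (ρ i) c : ℕ) : ℤ) - ((τ i c : ℕ) : ℤ)) ^ 2 +
          (2 * ((d c : ℕ) : ℤ)) * (((τ (ρ i) c : ℕ) : ℤ) - ((τ i c : ℕ) : ℤ)) + ((d c : ℕ) : ℤ) ^ 2) := by
      refine Finset.sum_congr rfl fun i _ => Finset.sum_congr rfl fun c _ => ?_
      rw [h1]
      ring
    rw [h4]
    simp only [Finset.sum_add_distrib, sq_abs]
    rw [Finset.sum_comm (f := fun i c => (2 * ((d c : ℕ) : ℤ)) *
      (((τ (ρ i) c : ℕ) : ℤ) - ((τ i c : ℕ) : ℤ)))]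
    simp only [← Finset.mul_sum, h3, mul_zero, Finset.sum_const_zero, add_zero]
    rw [Finset.sum_const, Finset.card_univ, Fintype.card_fin]
    simp
  exact_mod_cast key

theorem psi_eq (z : Fin q) (θ : ℂ) (hθ : θ ≠ 0) (a : Fin h) (d : Fin q → Fin h)
    (τ : Fin k ↪ (Fin q → Fin h)) :
    Kf θ d k * Psi z θ a (d z) (τ.trans ⟨_, trl_inj d⟩) (τ.trans ⟨_, emb_inj⟩) =
      ∑ ρ : Equiv.Perm (Fin k), C (θ ^ Ex τ ρ) * ∏ i, Mo z a d (τ i) (τ (ρ i)) := by
  unfold Psi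
  rw [Finset.mul_sum]
  refine Finset.sum_congr rfl fun ρ _ => ?_
  have h1 : ∀ i, Arr q h z θ (Fin.last q, a, (τ.trans ⟨_, emb_inj⟩ : Fin k ↪ Yt q h) i)
      (0, d z, (τ.trans ⟨_, trl_inj d⟩ : Fin k ↪ Yt q h) (ρ i)) =
      if hd : ∃ d' : Fin q → Fin h, (∀ c, (τ (ρ i) c : ℕ) + d c = τ i c + d' c) ∧ d' z = d z then
        C (θ ^ sq hd.choose) * X ((a, hd.choose), τ i) else 0 := by
    intro i
    exact arr_last z θ a (τ i) (τ (ρ i)) d
  simp only [h1]
  by_cases hall : ∀ i, ∃ d' : Fin q → Fin h, (∀ c, (τ (ρ i) c : ℕ) + d c = τ i c + d' c) ∧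
      d' z = d z
  · have h2 : ∀ i, (if hd : ∃ d' : Fin q → Fin h, (∀ c, (τ (ρ i) c : ℕ) + d c = τ i c + d' c) ∧
        d' z = d z then (C (θ ^ sq hd.choose) * X ((a, hd.choose), τ i) : MvPolynomial (Var q h) ℂ)
          else 0) =
        C (θ ^ sq (hall i).choose) * Mo z a d (τ i) (τ (ρ i)) := by
      intro i
      rw [dif_pos (hall i)]
      unfold Mo
      rw [dif_pos (hall i)]
    simp only [h2]
    rw [Finset.prod_mul_distrib, ← mul_assoc]
    congr 1
    have h3 := exponents (fun i => τ i) ρ d (fun i => (hall i).choose)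
      (fun i c => (hall i).choose_spec.1 c)
    unfold Kf
    rw [← map_prod, Finset.prod_pow_eq_pow_sum, h3]
    simp only [← map_pow, ← map_prod, ← map_mul]
    congr 1
    have h4 : ∏ l : Fin q, ((θ⁻¹) ^ ((d l : ℕ) ^ 2)) ^ k = (θ⁻¹) ^ (k * sq d) := by
      simp only [← pow_mul]
      rw [Finset.prod_pow_eq_pow_sum]
      congr 1
      unfold sq
      rw [Finset.mul_sum]
      exact Finset.sum_congr rfl fun l _ => mul_comm _ _
    rw [h4, pow_add, inv_pow]
    have h5 : θ ^ (k * sq d) ≠ 0 := pow_ne_zero _ hθ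
    field_simp
  · push Not at hall
    obtain ⟨i, hi⟩ := hall
    have h2 : ¬ ∃ d' : Fin q → Fin h, (∀ c, (τ (ρ i) c : ℕ) + d c = τ i c + d' c) ∧ d' z = d z := by
      rintro ⟨d', h1, h2⟩
      exact hi d' h1 h2
    rw [Finset.prod_eq_zero (Finset.mem_univ i) (dif_neg h2),
      Finset.prod_eq_zero (Finset.mem_univ i) (by unfold Mo; exact dif_neg h2), mul_zero, mul_zero]

end Pool.Agent.H33B.Val

namespace Pool.Agent.H33B

open Val

theorem t_val (hCh : S_Chain) : S_Val := by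
  intro q h k z θ hz hh hθ
  simp only [per_g hCh]
  have h0 : (0 : Fin (q + 1)) = z.castSucc := by
    apply Fin.ext
    simp [hz]
  have h1 := (Fin.snocEquiv (fun _ : Fin (q + 1) => Fin h)).sum_comp
    (fun g => Kf θ (fun l => g l.castSucc) k * (((k.factorial : MvPolynomial (Var q h) ℂ)) ^ q *
      ∑ σ : Fin k ↪ Yt q h, ∑ υ : Fin k ↪ Yt q h,
        if ∀ (i : Fin k) (c : Fin q), (σ i c : ℕ) = υ i c + (g c.castSucc : ℕ) then
          Psi z θ (g (Fin.last q)) (g 0) σ υ else 0))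
  refine h1.symm.trans ?_
  unfold Fdef
  rw [Finset.mul_sum]
  refine Finset.sum_congr rfl fun g _ => ?_
  obtain ⟨a, d⟩ := g
  have h3 : ∀ l : Fin q, (Fin.snocEquiv (fun _ : Fin (q + 1) => Fin h)) (a, d)
      l.castSucc = d l := by
    intro l
    simp [Fin.snocEquiv]
  have h4 : (Fin.snocEquiv (fun _ : Fin (q + 1) => Fin h)) (a, d)
      (Fin.last q) = a := by
    simp [Fin.snocEquiv]
  have h5 : (Fin.snocEquiv (fun _ : Fin (q + 1) => Fin h)) (a, d) 0 = d z := by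
    rw [h0, h3]
  simp only [h3, h4, h5]
  rw [two_sums, mul_left_comm, Finset.mul_sum]
  simp only [psi_eq z θ hθ]
  simp only [map_pow, map_natCast]

end Pool.Agent.H33B
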